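import Pool.Agent.H.MP_535799_an.A
namespace Pool.Agent.H.MP_e9aa5f_an
open MeasureTheory Metric Pool.Agent.H.MP_ceba03_an ComplexConjugate Finset

abbrev S : Set ℂ := sphere 0 1
abbrev An (G : ℂ → ℂ) : Prop := AnalyticOnNhd ℂ G (closedBall 0 1)

structure Cir where
  ε : T → ℂ
  cont : Continuous ε
  mem : ∀ t, ε t ∈ S
  mv : ∀ G, An G → ∫ t, G (ε t) ∂μ = G 0

noncomputable def J (c : Cir) (ψ : ℂ → ℂ) : ℂ := ∫ t, ψ (c.ε t) ∂μ
noncomputable def Jr (c : Cir) (u : ℂ → ℝ) : ℝ := ∫ t, u (c.ε t) ∂μ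

variable {c : Cir}

lemma int {E : Type} [NormedAddCommGroup E] {ψ : ℂ → E} (h : ContinuousOn ψ S) :
    Integrable (fun t => ψ (c.ε t)) μ :=
  (h.comp_continuous c.cont c.mem).integrable_of_hasCompactSupport
    (HasCompactSupport.of_compactSpace _)

lemma An.co {G : ℂ → ℂ} (h : An G) : ContinuousOn G S :=
  h.continuousOn.mono sphere_subset_closedBall

lemma J_congr {ψ φ : ℂ → ℂ} (h : ∀ w ∈ S, ψ w = φ w) : J c ψ = J c φ := by
  simp only [J, h _ (c.mem _)]

lemma J_add {ψ φ : ℂ → ℂ} (h : ContinuousOn ψ S) (h' : ContinuousOn φ S) :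
    J c (fun w => ψ w + φ w) = J c ψ + J c φ := integral_add (int h) (int h')

lemma J_sub {ψ φ : ℂ → ℂ} (h : ContinuousOn ψ S) (h' : ContinuousOn φ S) :
    J c (fun w => ψ w - φ w) = J c ψ - J c φ := integral_sub (int h) (int h')

lemma J_mul (k : ℂ) (ψ : ℂ → ℂ) : J c (fun w => k * ψ w) = k * J c ψ := integral_const_mul _ _

lemma J_conj (ψ : ℂ → ℂ) : J c (fun w => conj (ψ w)) = conj (J c ψ) := integral_conj

lemma J_le {ψ : ℂ → ℂ} {u : ℂ → ℝ} (hu : ContinuousOn u S) (h : ∀ w ∈ S, ‖ψ w‖ ≤ u w) :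
    ‖J c ψ‖ ≤ Jr c u :=
  norm_integral_le_of_norm_le (int hu) (Filter.Eventually.of_forall fun t => h _ (c.mem t))

lemma J_le' {ψ : ℂ → ℂ} {B : ℝ} (h : ∀ w ∈ S, ‖ψ w‖ ≤ B) : ‖J c ψ‖ ≤ B := by
  simpa [Jr] using J_le (c := c) (u := fun _ => B) continuousOn_const h

lemma Jr_mono {u v : ℂ → ℝ} (hu : ContinuousOn u S) (hv : ContinuousOn v S)
    (h : ∀ w ∈ S, u w ≤ v w) : Jr c u ≤ Jr c v :=
  integral_mono (int hu) (int hv) fun t => h _ (c.mem t)

lemma Jr_add {u v : ℂ → ℝ} (hu : ContinuousOn u S) (hv : ContinuousOn v S) :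
    Jr c (fun w => u w + v w) = Jr c u + Jr c v := integral_add (int hu) (int hv)

lemma Jr_mul (k : ℝ) (u : ℂ → ℝ) : Jr c (fun w => k * u w) = k * Jr c u := integral_const_mul _ _

lemma Jr_re {ψ : ℂ → ℂ} (h : ContinuousOn ψ S) : Jr c (fun w => (ψ w).re) = (J c ψ).re :=
  integral_re (int h)

lemma J_real (u : ℂ → ℝ) : J c (fun w => (u w : ℂ)) = Jr c u := integral_complex_ofReal

lemma Jr_nonneg {u : ℂ → ℝ} (h : ∀ w, 0 ≤ u w) : 0 ≤ Jr c u := integral_nonneg fun _ => h _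

lemma An.dslope {G : ℂ → ℂ} (h : An G) {x : ℂ} (hx : x ∈ closedBall (0 : ℂ) 1) :
    An (dslope G x) := by
  intro z hz
  rcases eq_or_ne z x with rfl | hzx
  · obtain ⟨p, hp⟩ := h z hz
    exact ⟨_, hp.has_fpower_series_dslope_fslope⟩
  · refine AnalyticAt.congr ?_ (dslope_eventuallyEq_slope_of_ne G hzx).symm
    have := h z hz
    unfold slope
    simp only [vsub_eq_sub]
    exact ((analyticAt_id.sub analyticAt_const).inv (sub_ne_zero.2 hzx)).smul
      (this.sub analyticAt_const)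

lemma maxA {G : ℂ → ℂ} (h : An G) {B : ℝ} (hB : ∀ w ∈ S, ‖G w‖ ≤ B) {z : ℂ}
    (hz : z ∈ closedBall (0 : ℂ) 1) : ‖G z‖ ≤ B := by
  refine Complex.norm_le_of_forall_mem_frontier_norm_le (U := ball 0 1) isBounded_ball
    (DifferentiableOn.diffContOnCl ?_) ?_ ?_
  · rw [closure_ball _ one_ne_zero]; exact h.differentiableOn
  · rw [frontier_ball _ one_ne_zero]; exact hB
  · rwa [closure_ball _ one_ne_zero]

lemma rmem {x : ℝ} (h0 : 0 ≤ x) (h1 : x < 1) : (x : ℂ) ∈ closedBall (0 : ℂ) 1 := by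
  simp [abs_of_nonneg h0, h1.le]

lemma sub_ge {x : ℝ} (h0 : 0 ≤ x) {w : ℂ} (hw : w ∈ S) : 1 - x ≤ ‖w - x‖ := by
  have := norm_sub_norm_le w x
  rwa [mem_sphere_zero_iff_norm.1 hw, Complex.norm_real, Real.norm_of_nonneg h0] at this

lemma sub_ne {x : ℝ} (h0 : 0 ≤ x) (h1 : x < 1) {w : ℂ} (hw : w ∈ S) : w - x ≠ 0 :=
  norm_pos_iff.1 (by linarith [sub_ge h0 hw])

lemma cj {w : ℂ} (hw : w ∈ S) : conj w * w = 1 := by
  rw [mul_comm, Complex.mul_conj', mem_sphere_zero_iff_norm.1 hw]; simp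

lemma one_sub {x : ℝ} {w : ℂ} (hw : w ∈ S) : 1 - x * w = w * conj (w - x) := by
  have := cj hw
  simp only [map_sub, Complex.conj_ofReal]; linear_combination -this

lemma one_norm {x : ℝ} {w : ℂ} (hw : w ∈ S) : ‖1 - x * w‖ = ‖w - x‖ := by
  rw [one_sub hw, norm_mul, mem_sphere_zero_iff_norm.1 hw, one_mul, Complex.norm_conj]

lemma one_ne {x : ℝ} (h0 : 0 ≤ x) (h1 : x < 1) {w : ℂ} (hw : w ∈ closedBall (0 : ℂ) 1) :
    1 - x * w ≠ 0 := by
  intro h
  have h2 : ‖(x : ℂ) * w‖ = 1 := by rw [← sub_eq_zero.1 h, norm_one]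
  rw [norm_mul, Complex.norm_real, Real.norm_of_nonneg h0] at h2
  nlinarith [mem_closedBall_zero_iff.1 hw]

noncomputable def k (x : ℝ) (w : ℂ) : ℂ := (1 - x * w)⁻¹
noncomputable def ck (x : ℝ) (w : ℂ) : ℂ := w / (w - x)
noncomputable def iq (x : ℝ) (w : ℂ) : ℝ := (‖w - x‖ ^ 2)⁻¹

lemma k_an {x : ℝ} (h0 : 0 ≤ x) (h1 : x < 1) : An (k x) := fun _ hz =>
  (analyticAt_const.sub (analyticAt_const.mul analyticAt_id)).inv (one_ne h0 h1 hz)

lemma ck_co {x : ℝ} (h0 : 0 ≤ x) (h1 : x < 1) : ContinuousOn (ck x) S :=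
  ContinuousOn.div (by fun_prop) (by fun_prop) fun _ hw => sub_ne h0 h1 hw

lemma iq_co {x : ℝ} (h0 : 0 ≤ x) (h1 : x < 1) : ContinuousOn (iq x) S :=
  ContinuousOn.inv₀ (by fun_prop) fun _ hw => pow_ne_zero _ (norm_ne_zero_iff.2 (sub_ne h0 h1 hw))

lemma iq_nonneg (x : ℝ) (w : ℂ) : 0 ≤ iq x w := by unfold iq; positivity

lemma ck_conj {x : ℝ} (h0 : 0 ≤ x) (h1 : x < 1) {w : ℂ} (hw : w ∈ S) : conj (ck x w) = k x w := by
  have h2 := cj hw
  have h3 : conj (w - x) ≠ 0 := (map_ne_zero _).2 (sub_ne h0 h1 hw)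
  have h4 : w ≠ 0 := right_ne_zero_of_mul (by rw [h2]; simp)
  rw [ck, k, one_sub hw, map_div₀]; field_simp; linear_combination h2

lemma k_ck {x : ℝ} (h0 : 0 ≤ x) (h1 : x < 1) {w : ℂ} (hw : w ∈ S) : k x w * ck x w = iq x w := by
  have h2 := cj hw
  have h3 : conj (w - x) ≠ 0 := (map_ne_zero _).2 (sub_ne h0 h1 hw)
  have h4 : w ≠ 0 := right_ne_zero_of_mul (by rw [h2]; simp)
  have h5 := sub_ne h0 h1 hw
  rw [ck, k, one_sub hw, iq]; push_cast; rw [← Complex.mul_conj']; field_simp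

lemma k_norm {x : ℝ} {w : ℂ} (hw : w ∈ S) : ‖k x w‖ = ‖w - x‖⁻¹ := by
  rw [k, norm_inv, one_norm hw]

lemma J_w {G : ℂ → ℂ} (h : An G) : J c (fun w => w * G w) = 0 := by
  simpa [J] using c.mv (fun w => w * G w) (analyticOnNhd_id.mul h)

lemma cauchy {G : ℂ → ℂ} (h : An G) {x : ℝ} (h0 : 0 ≤ x) (h1 : x < 1) :
    J c (fun w => G w * ck x w) = G x := by
  have h2 := h.dslope (rmem h0 h1)
  have h3 : J c (ck x) = 1 := by
    have : J c (k x) = 1 := by simpa [k, J] using c.mv _ (k_an h0 h1)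
    rw [J_congr (φ := fun w => conj (k x w)) fun w hw => by rw [← ck_conj h0 h1 hw]; simp,
      J_conj, this, map_one]
  have := ck_co h0 h1
  have := h2.co
  rw [J_congr (φ := fun w => G x * ck x w + w * dslope G x w), J_add (by fun_prop) (by fun_prop),
    J_mul, J_w h2, h3, mul_one, add_zero]
  intro w hw
  have h4 := sub_smul_dslope G x w
  have h5 := sub_ne h0 h1 hw
  rw [smul_eq_mul] at h4
  rw [ck]; field_simp; linear_combination -w * h4

lemma cauchy' {G : ℂ → ℂ} (h : An G) {x : ℝ} (h0 : 0 ≤ x) (h1 : x < 1) :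
    J c (fun w => conj (G w) * k x w) = conj (G x) := by
  rw [← cauchy (c := c) h h0 h1, ← J_conj]
  exact J_congr fun w hw => by rw [map_mul, ck_conj h0 h1 hw]

lemma poisson {G : ℂ → ℂ} (h : An G) {x : ℝ} (h0 : 0 ≤ x) (h1 : x < 1) :
    J c (fun w => G w * ((1 - x ^ 2) * iq x w : ℝ)) = G x := by
  have h2 := cauchy (c := c) (h.mul (k_an h0 h1)) h0 h1
  have h3 := one_ne h0 h1 (rmem h0 h1)
  rw [J_congr (φ := fun w => (1 - x * x) * (G w * k x w * ck x w)), J_mul, h2, k]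
  · rw [mul_left_comm, mul_inv_cancel₀ h3, mul_one]
  · intro w hw; rw [mul_assoc, k_ck h0 h1 hw]; push_cast; ring

lemma pois_le (c : Cir) {G H : ℂ → ℂ} (hG : An G) (hH : An H) {x : ℝ} (h0 : 0 ≤ x) (h1 : x < 1) {B : ℝ}
    (hB : ∀ w ∈ S, ‖G w + conj (H w)‖ ≤ B) : ‖G x + conj (H x)‖ ≤ B := by
  have := iq_co h0 h1
  have := hG.co
  have := hH.co
  have hx : 0 ≤ 1 - x ^ 2 := by nlinarith
  have h2 : Jr c (fun w => (1 - x ^ 2) * iq x w) = 1 := by
    have := poisson (c := c) (G := fun _ => 1) analyticOnNhd_const h0 h1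
    simp only [one_mul] at this
    rw [J_real] at this; exact_mod_cast this
  rw [← poisson (c := c) hG h0 h1, ← poisson (c := c) hH h0 h1, ← J_conj,
    ← J_add (by fun_prop) (by fun_prop)]
  refine (J_le (u := fun w => B * ((1 - x ^ 2) * iq x w)) (by fun_prop) fun w hw => ?_).trans ?_
  · rw [map_mul, Complex.conj_ofReal, ← add_mul, norm_mul, Complex.norm_real,
      Real.norm_of_nonneg (mul_nonneg hx (iq_nonneg _ _))]
    exact mul_le_mul_of_nonneg_right (hB w hw) (mul_nonneg hx (iq_nonneg _ _))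
  · rw [Jr_mul, h2, mul_one]

structure Sq (r : ℕ → ℝ) : Prop where
  h0 : 0 ≤ r 0
  h1 : r 0 < 1
  hs : ∀ m, r (m + 1) = (1 + r m) / 2

lemma Sq.lt {r : ℕ → ℝ} (h : Sq r) (m : ℕ) : r m < 1 := by
  induction m with
  | zero => exact h.h1
  | succ m ih => rw [h.hs]; linarith

lemma Sq.mono {r : ℕ → ℝ} (h : Sq r) : Monotone r :=
  monotone_nat_of_le_succ fun m => by rw [h.hs]; linarith [h.lt m]

lemma Sq.ge {r : ℕ → ℝ} (h : Sq r) (m : ℕ) : 0 ≤ r m := h.h0.trans (h.mono (Nat.zero_le m))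

lemma tele {r : ℕ → ℝ} (h : Sq r) (M : ℕ) {w : ℂ} (hw : w ∈ S) :
    ∑ m ∈ range M, ‖w - r M‖ * ((1 - r (m + 1)) * iq (r (m + 1)) w) ≤ 18 := by
  set t := ‖w - r M‖
  have ht : 0 ≤ t := norm_nonneg _
  calc _ ≤ ∑ m ∈ range M, 18 * (t / (1 - r (m + 1) + t) - t / (1 - r m + t)) := by
        refine sum_le_sum fun m hm => ?_
        have h1 := h.lt (m + 1)
        have h2 := sub_ge (h.ge (m + 1)) hw
        have h3 : r (m + 1) ≤ r M := h.mono (mem_range.1 hm)
        have h4 : t ≤ ‖w - r (m + 1)‖ + (r M - r (m + 1)) := by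
          have := norm_sub_le (w - r (m + 1)) ((r M - r (m + 1) : ℝ) : ℂ)
          rw [Complex.norm_real, Real.norm_of_nonneg (sub_nonneg.2 h3)] at this
          refine le_trans (le_of_eq ?_) this
          exact congrArg norm (by push_cast; ring)
        have h5 := h.lt M
        have h6 : 1 - r m = 2 * (1 - r (m + 1)) := by rw [h.hs]; ring
        rw [h6, iq]
        set d := 1 - r (m + 1)
        set n := ‖w - r (m + 1)‖
        have hd : 0 < d := by linarith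
        have hn : 0 < n := by linarith
        have h7 : d + t ≤ 3 * n := by linarith
        have : t / (d + t) - t / (2 * d + t) = t * d / ((d + t) * (2 * d + t)) := by
          field_simp; ring
        rw [this, ← mul_assoc, ← div_eq_mul_inv, ← mul_div_assoc,
          div_le_div_iff₀ (by positivity) (by positivity)]
        have : (d + t) * (2 * d + t) ≤ 18 * n ^ 2 := by nlinarith
        nlinarith [mul_nonneg ht hd.le]
    _ ≤ _ := by
        rw [← mul_sum, sum_range_sub (fun m => t / (1 - r m + t))]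
        have h1 := h.lt M
        have h2 := h.lt 0
        have : t / (1 - r M + t) ≤ 1 := by rw [div_le_one (by linarith)]; linarith
        have : 0 ≤ t / (1 - r 0 + t) := div_nonneg ht (by linarith)
        linarith

def Hyp (c : Cir) (h : ℂ → ℂ) (ρ N : ℝ) : Prop := ∀ G, An G → ∀ B : ℝ, (∀ w ∈ S, ‖G w‖ ≤ B) →
  ‖J c fun w => G w * conj (h w) * ck ρ w‖ ≤ N * B

lemma master {r : ℕ → ℝ} (hr : Sq r) (M : ℕ) {h : ℂ → ℂ} (hh : An h) {N B : ℝ}
    (H : Hyp c h (r M) N) (hB : 0 ≤ B) (e : ℕ → ℂ → ℂ) (he : ∀ m, An (e m))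
    (hb : ∀ m, ∀ w ∈ S, ‖e m w‖ ≤ B * ((1 - r (m + 1)) * iq (r (m + 1)) w)) (d : ℕ → ℂ) :
    ∑ m ∈ range M, ‖J c fun w => w * e m w * conj (h w - d m)‖ ≤ N * (18 * B) := by
  have hc := hh.co
  have h1 : ∀ m, (J c fun w => w * e m w * conj (h w - d m)) =
      J c fun w => w * e m w * conj (h w) := fun m => by
    have := (he m).co
    rw [J_congr (φ := fun w => w * e m w * conj (h w) - conj (d m) * (w * e m w))
      fun w _ => by rw [map_sub]; ring, J_sub (by fun_prop) (by fun_prop), J_mul, J_w (he m)]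
    simp
  simp only [h1]
  choose σ hσ hσ' using fun m => Complex.exists_norm_eq_mul_self
    (J c fun w => w * e m w * conj (h w))
  have h2 := H (fun w => ∑ m ∈ range M, σ m * ((w - r M) * e m w))
    (Finset.analyticOnNhd_fun_sum _ fun m _ => analyticOnNhd_const.mul
      ((analyticOnNhd_id.sub analyticOnNhd_const).mul (he m))) (18 * B) fun w hw => by
    refine (norm_sum_le _ _).trans ?_
    refine le_trans ?_ (mul_le_mul_of_nonneg_right (tele hr M hw) hB)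
    rw [sum_mul]
    refine sum_le_sum fun m _ => ?_
    rw [norm_mul, hσ, one_mul, norm_mul, mul_assoc, mul_comm _ B]
    exact mul_le_mul_of_nonneg_left (hb m w hw) (norm_nonneg _)
  refine le_trans (le_of_eq ?_) h2
  rw [← Real.norm_of_nonneg (sum_nonneg fun _ _ => norm_nonneg _), ← Complex.norm_real]
  congr 1
  push_cast
  simp only [hσ', ← J_mul]
  symm
  rw [J_congr (φ := fun w => ∑ m ∈ range M, σ m * (w * e m w * conj (h w)))]
  · unfold J
    rw [integral_finsetSum]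
    intro m _
    have := (he m).co
    exact int (ψ := fun w => σ m * (w * e m w * conj (h w))) (by fun_prop)
  · intro w hw
    have := sub_ne (hr.ge M) (hr.lt M) hw
    rw [sum_mul, sum_mul]
    refine sum_congr rfl fun m _ => ?_
    rw [ck]; field_simp

end Pool.Agent.H.MP_e9aa5f_an
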