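import Pool.Agent.H.MP_e9aa5f_an.A
namespace Pool.Agent.H.MP_e9aa5f_an
open MeasureTheory Metric Pool.Agent.H.MP_ceba03_an ComplexConjugate Finset

variable {c : Cir}

lemma cmp {x y : ℝ} (h0 : 0 ≤ x) (h1 : x < 1) (hy : y = (1 + x) / 2) {w : ℂ} (hw : w ∈ S) :
    ‖w - y‖ ≤ 2 * ‖w - x‖ := by
  have h2 := sub_ge h0 hw
  have := norm_sub_le (w - x) ((y - x : ℝ) : ℂ)
  rw [Complex.norm_real, Real.norm_of_nonneg (by linarith)] at this
  refine le_trans (le_of_eq (congrArg norm (by push_cast; ring))) (this.trans (by linarith))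

lemma inv_cmp {x y : ℝ} (h0 : 0 ≤ x) (h1 : x < 1) (hy : y = (1 + x) / 2) {w : ℂ} (hw : w ∈ S) :
    ‖w - x‖⁻¹ ≤ 2 * ‖w - y‖⁻¹ := by
  have h2 := cmp h0 h1 hy hw
  have h3 := norm_pos_iff.2 (sub_ne h0 h1 hw)
  have h4 := norm_pos_iff.2 (sub_ne (x := y) (by linarith) (by linarith) hw)
  rw [← div_eq_mul_inv, inv_eq_one_div, div_le_div_iff₀ h3 h4]; linarith

lemma iq_eq (y : ℝ) (w : ℂ) : iq y w = ‖w - y‖⁻¹ * ‖w - y‖⁻¹ := by rw [iq, sq, mul_inv]

lemma ck_sub {x y : ℝ} (h0 : 0 ≤ x) (h1 : x < 1) (hy : y = (1 + x) / 2) {w : ℂ} (hw : w ∈ S) :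
    (w - x) * (ck y w - ck x w) = (1 - y : ℝ) * ck y w := by
  have h3 := sub_ne h0 h1 hw
  have h4 := sub_ne (x := y) (by linarith) (by linarith) hw
  have : (1 - y : ℝ) = y - x := by linarith
  rw [this, ck, ck]; push_cast; field_simp; ring

lemma ck_norm {x : ℝ} {w : ℂ} (hw : w ∈ S) : ‖ck x w‖ = ‖w - x‖⁻¹ := by
  rw [ck, norm_div, mem_sphere_zero_iff_norm.1 hw, one_div]

lemma kd {x y : ℝ} (h0 : 0 ≤ x) (h1 : x < 1) (hy : y = (1 + x) / 2) {w : ℂ} (hw : w ∈ S) :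
    ‖ck y w - ck x w‖ ≤ 2 * ((1 - y) * iq y w) := by
  have h2 := (eq_inv_mul_iff_mul_eq₀ (sub_ne h0 h1 hw)).2 (ck_sub h0 h1 hy hw)
  have h3 := inv_cmp h0 h1 hy hw
  have h4 : 0 ≤ 1 - y := by linarith
  rw [h2, norm_mul, norm_mul, norm_inv, ck_norm hw, Complex.norm_real, Real.norm_of_nonneg h4, iq_eq]
  calc _ ≤ 2 * ‖w - y‖⁻¹ * ((1 - y) * ‖w - y‖⁻¹) := by gcongr
    _ = _ := by ring

lemma ds_le {G : ℂ → ℂ} {x : ℝ} (h0 : 0 ≤ x) (h1 : x < 1) {w : ℂ} (hw : w ∈ S) :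
    ‖dslope G x w‖ = ‖G w - G x‖ * ‖w - x‖⁻¹ := by
  have h4 := sub_smul_dslope G x w
  rw [smul_eq_mul] at h4
  rw [← h4, norm_mul, mul_right_comm, mul_inv_cancel₀ (norm_ne_zero_iff.2 (sub_ne h0 h1 hw)),
    one_mul]

lemma two_le {G : ℂ → ℂ} (hG : An G) {B : ℝ} (hB : ∀ w ∈ S, ‖G w‖ ≤ B) {z w : ℂ}
    (hz : z ∈ closedBall (0 : ℂ) 1) (hw : w ∈ closedBall (0 : ℂ) 1) : ‖G z - G w‖ ≤ 2 * B :=
  (norm_sub_le _ _).trans (by linarith [maxA hG hB hz, maxA hG hB hw])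

lemma sum_var {r : ℕ → ℝ} (hr : Sq r) (M : ℕ) {h : ℂ → ℂ} (hh : An h) {N : ℝ}
    (H : Hyp c h (r M) N) : ∑ m ∈ range M, ‖h (r (m + 1)) - h (r m)‖ ≤ N * (18 * 2) := by
  refine le_trans (le_of_eq (sum_congr rfl fun m _ => ?_)) (master hr M hh H (by norm_num)
    (fun m w => (1 - r (m + 1) : ℝ) * (k (r m) w * k (r (m + 1)) w))
    (fun m => analyticOnNhd_const.mul ((k_an (hr.ge _) (hr.lt _)).mul (k_an (hr.ge _) (hr.lt _))))
    (fun m w hw => ?_) 0)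
  · have h1 := (k_an (hr.ge m) (hr.lt m)).co
    have h2 := (k_an (hr.ge (m + 1)) (hr.lt (m + 1))).co
    have h3 := hh.co
    rw [J_congr (φ := fun w => conj (h w) * k (r (m + 1)) w - conj (h w) * k (r m) w),
      J_sub (by fun_prop) (by fun_prop), cauchy' hh (hr.ge _) (hr.lt _),
      cauchy' hh (hr.ge _) (hr.lt _), ← map_sub, Complex.norm_conj]
    intro w hw
    have h4 := one_ne (hr.ge m) (hr.lt m) (sphere_subset_closedBall hw)
    have h5 := one_ne (hr.ge (m + 1)) (hr.lt (m + 1)) (sphere_subset_closedBall hw)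
    have : 1 - r (m + 1) = r (m + 1) - r m := by linarith [hr.hs m]
    have h6 := mul_inv_cancel₀ h4
    have h7 := mul_inv_cancel₀ h5
    rw [this, k, k, Pi.zero_apply, sub_zero]; push_cast
    linear_combination conj (h w) * (1 - r (m + 1) * w)⁻¹ * h6 - conj (h w) * (1 - r m * w)⁻¹ * h7
  · have h4 : 0 ≤ 1 - r (m + 1) := by linarith [hr.lt (m + 1)]
    have h3 := inv_cmp (hr.ge m) (hr.lt m) (hr.hs m) hw
    rw [norm_mul, norm_mul, k_norm hw, k_norm hw, Complex.norm_real, Real.norm_of_nonneg h4, iq_eq]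
    calc _ ≤ (1 - r (m + 1)) * (2 * ‖w - r (m + 1)‖⁻¹ * ‖w - r (m + 1)‖⁻¹) := by gcongr
      _ = _ := by ring

noncomputable def V (c : Cir) (h : ℂ → ℂ) (y : ℝ) : ℝ :=
  Jr c fun w => ‖h w - h y‖ ^ 2 * ((1 - y) * iq y w)

lemma sum_V {r : ℕ → ℝ} (hr : Sq r) (M : ℕ) {h : ℂ → ℂ} (hh : An h) {N : ℝ}
    (H : Hyp c h (r M) N) (hN : ∀ w ∈ S, ‖h w‖ ≤ N) (hN0 : 0 ≤ N) :
    ∑ m ∈ range M, V c h (r (m + 1)) ≤ N * (18 * (2 * N)) := by
  refine le_trans (sum_le_sum fun m _ => ?_) (master hr M hh H (by positivity)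
    (fun m w => dslope h (r (m + 1)) w * ((1 - r (m + 1) : ℝ) * k (r (m + 1)) w))
    (fun m => (hh.dslope (rmem (hr.ge _) (hr.lt _))).mul
      (analyticOnNhd_const.mul (k_an (hr.ge _) (hr.lt _))))
    (fun m w hw => ?_) fun m => h (r (m + 1)))
  · rw [J_congr (φ := fun w =>
      ((‖h w - h (r (m + 1))‖ ^ 2 * ((1 - r (m + 1)) * iq (r (m + 1)) w) : ℝ) : ℂ)), J_real,
      Complex.norm_real]
    · exact le_abs_self _
    intro w hw
    have h4 := sub_smul_dslope h (r (m + 1)) w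
    have h5 := sub_ne (hr.ge (m + 1)) (hr.lt (m + 1)) hw
    rw [smul_eq_mul] at h4
    push_cast
    rw [← k_ck (hr.ge _) (hr.lt _) hw, ← Complex.mul_conj', ← h4, ck]; field_simp
  · have h4 : 0 ≤ 1 - r (m + 1) := by linarith [hr.lt (m + 1)]
    have h3 := two_le hh hN (sphere_subset_closedBall hw) (rmem (hr.ge (m + 1)) (hr.lt (m + 1)))
    rw [norm_mul, norm_mul, k_norm hw, ds_le (hr.ge _) (hr.lt _) hw, Complex.norm_real,
      Real.norm_of_nonneg h4, iq_eq]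
    calc _ ≤ 2 * N * ‖w - r (m + 1)‖⁻¹ * ((1 - r (m + 1)) * ‖w - r (m + 1)‖⁻¹) := by gcongr
      _ = _ := by ring

lemma decomp {x y : ℝ} (h0 : 0 ≤ x) (h1 : x < 1) (hy : y = (1 + x) / 2) {h G : ℂ → ℂ} (hh : An h)
    (hG : An G) {B : ℝ} (hB : ∀ w ∈ S, ‖G w‖ ≤ B) : ∃ e, An e ∧
    (∀ w ∈ S, ‖e w‖ ≤ 8 * B * ((1 - y) * iq y w)) ∧
    (J c fun w => G w * conj (h w - h y) * (ck y w - ck x w)) =
      J c fun w => w * e w * conj (h w - h y) := by
  have y0 : 0 ≤ y := by linarith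
  have y1 : y < 1 := by linarith
  have hB0 : 0 ≤ B := (norm_nonneg _).trans (hB 1 (by simp))
  set H : ℂ → ℂ := fun w => (1 - y : ℝ) * dslope G x w with hH
  have aH : An H := analyticOnNhd_const.mul (hG.dslope (rmem h0 h1))
  set H2 : ℂ → ℂ := fun w => H w - H y * (1 - y ^ 2 : ℝ) * k y w with hH2
  have aH2 : An H2 := aH.sub (analyticOnNhd_const.mul (k_an y0 y1))
  have z2 : H2 y = 0 := by
    have := one_ne y0 y1 (rmem y0 y1)
    simp only [hH2, k]; push_cast; rw [sq, mul_assoc, mul_inv_cancel₀ this, mul_one, sub_self]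
  have Hy : ‖H y‖ ≤ 2 * B := by
    have h4 := sub_smul_dslope G x y
    have : (1 - y : ℝ) = y - x := by linarith
    rw [smul_eq_mul] at h4
    simp only [hH, this]; push_cast
    rw [h4]; exact two_le hG hB (rmem y0 y1) (rmem h0 h1)
  refine ⟨dslope H2 y, aH2.dslope (rmem y0 y1), fun w hw => ?_, ?_⟩
  · have h3 := inv_cmp h0 h1 hy hw
    have h4 : 0 ≤ 1 - y := by linarith
    have h5 : 0 ≤ 1 - y ^ 2 := by nlinarith
    have h6 := two_le hG hB (sphere_subset_closedBall hw) (rmem h0 h1)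
    rw [ds_le y0 y1 hw, z2, sub_zero, iq_eq, ← mul_assoc, ← mul_assoc]
    gcongr
    refine (norm_sub_le _ _).trans ?_
    rw [hH, norm_mul, norm_mul, norm_mul, k_norm hw, ds_le h0 h1 hw, Complex.norm_real,
      Complex.norm_real, Real.norm_of_nonneg h4, Real.norm_of_nonneg h5]
    calc _ ≤ (1 - y) * (2 * B * (2 * ‖w - y‖⁻¹)) + 2 * B * (2 * (1 - y)) * ‖w - y‖⁻¹ := by
          gcongr; nlinarith
      _ = _ := by ring
  · have c1 := (aH2.dslope (rmem y0 y1)).co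
    have c2 := hh.co
    have c3 := (k_an y0 y1).co
    have c4 := (k_an h0 h1).co
    have c5 := iq_co y0 y1
    have a1 : An fun w => h w - h y := hh.sub analyticOnNhd_const
    have e1 := c.mv _ (a1.mul ((k_an y0 y1).sub (k_an h0 h1)))
    have e2 := poisson (c := c) a1 y0 y1
    simp only [k, mul_zero, sub_zero, sub_self, Pi.sub_apply] at e1 e2
    rw [J_congr (φ := fun w => (G x * conj ((h w - h y) * (k y w - k x w)) +
      H y * conj ((h w - h y) * ((1 - y ^ 2) * iq y w : ℝ))) +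
      w * dslope H2 y w * conj (h w - h y)), J_add (by fun_prop) (by fun_prop),
      J_add (by fun_prop) (by fun_prop), J_mul, J_mul, J_conj, J_conj, e2]
    · simp only [J, k, e1]; simp
    intro w hw
    have i1 := sub_smul_dslope G x w
    have i2 := sub_smul_dslope H2 y w
    generalize dslope H2 y w = D2 at i2 ⊢
    have i3 := ck_sub h0 h1 hy hw
    have i4 := k_ck y0 y1 hw
    have i5 : (w - y) * ck y w = w := by
      have := sub_ne y0 y1 hw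
      rw [ck]; field_simp
    rw [smul_eq_mul] at i1 i2
    rw [z2] at i2
    simp only [hH2, hH] at i2
    rw [map_mul, map_mul, Complex.conj_ofReal, map_sub (starRingEnd ℂ) (k y w),
      ← ck_conj y0 y1 hw, ← ck_conj h0 h1 hw, Complex.conj_conj, Complex.conj_conj]
    simp only [hH]
    push_cast at i2 i3 ⊢
    set η := conj (h w - h y)
    linear_combination (-η * (ck y w - ck x w)) * i1 + η * dslope G x w * i3 -
      η * ck y w * i2 + η * D2 * i5 +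
      η * (1 - y) * dslope G x y * (1 - y ^ 2) * i4

lemma sum_K {r : ℕ → ℝ} (hr : Sq r) (M : ℕ) {h : ℂ → ℂ} (hh : An h) {N B : ℝ}
    (H : Hyp c h (r M) N) (G : ℕ → ℂ → ℂ) (hG : ∀ m, An (G m)) (hB : ∀ m, ∀ w ∈ S, ‖G m w‖ ≤ B) :
    ∑ m ∈ range M, ‖J c fun w => G m w * conj (h w - h (r (m + 1))) *
      (ck (r (m + 1)) w - ck (r m) w)‖ ≤ N * (18 * (8 * B)) := by
  have hB0 : 0 ≤ B := (norm_nonneg _).trans (hB 0 1 (by simp))
  choose e he he' he'' using fun m =>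
    decomp (c := c) (hr.ge m) (hr.lt m) (hr.hs m) hh (hG m) (hB m)
  simp only [he'']
  exact master hr M hh H (by positivity) e he he' _

end Pool.Agent.H.MP_e9aa5f_an
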