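import Pool.Agent.H.MP_e9aa5f_an.B
namespace Pool.Agent.H.MP_e9aa5f_an
open MeasureTheory Metric Pool.Agent.H.MP_ceba03_an ComplexConjugate Finset

variable {c : Cir}

structure FF (F F' : ℂ → ℂ) (s C : ℝ) : Prop where
  an : AnalyticOnNhd ℂ F (closedBall 0 s)
  an' : AnalyticOnNhd ℂ F' (closedBall 0 s)
  b : ∀ x ∈ closedBall (0 : ℂ) s, ‖F x‖ ≤ C
  b' : ∀ x ∈ closedBall (0 : ℂ) s, ‖F' x‖ ≤ C
  rem : ∀ x ∈ closedBall (0 : ℂ) s, ∀ y ∈ closedBall (0 : ℂ) s,
    ‖F y - F x - F' x * (y - x)‖ ≤ C * ‖y - x‖ ^ 2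

lemma pois_mu {G : ℂ → ℂ} (h : An G) {y : ℝ} (h0 : 0 ≤ y) (h1 : y < 1) :
    Jr c (fun w => (G w).re * ((1 - y) * iq y w)) = (1 + y)⁻¹ * (G y).re := by
  have h2 := h.co
  have h3 := iq_co h0 h1
  have h4 := Jr_re (c := c) (ψ := fun w => G w * ((1 - y ^ 2) * iq y w : ℝ)) (by fun_prop)
  rw [poisson h h0 h1] at h4
  rw [← h4, ← Jr_mul]
  congr 1; funext w
  rw [Complex.re_mul_ofReal]; field_simp; ring

lemma outer {h U : ℂ → ℂ} (hU : An U) {x y κ : ℝ} (h0 : 0 ≤ x) (h1 : x < 1) (hy : y = (1 + x) / 2)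
    (hκ : 0 ≤ κ) (hre : ∀ w ∈ S, (U w).re = ‖h w - h y‖ ^ 2) : ∃ O, An O ∧
    (∀ w ∈ S, ‖O w‖ * (1 + κ * ‖h w - h y‖ ^ 2) ≤ 1) ∧
    Jr c (fun w => ‖1 - O w‖ ^ 2 * ((1 - y) * iq y w)) ≤ 2 * κ * V c h y := by
  have y0 : 0 ≤ y := by linarith
  have y1 : y < 1 := by linarith
  set U1 : ℂ → ℂ := fun w => κ * (U w - Complex.I * (U y).im) with hU1
  have a1 : An U1 := analyticOnNhd_const.mul (hU.sub analyticOnNhd_const)
  have r1 : ∀ w ∈ S, (U1 w).re = κ * ‖h w - h y‖ ^ 2 := fun w hw => by simp [hU1, hre w hw]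
  have r2 : ∀ z ∈ closedBall (0 : ℂ) 1, 0 ≤ (U1 z).re := fun z hz => by
    have := maxA (G := fun w => Complex.exp (-U1 w)) a1.neg.cexp (B := 1) (fun w hw => by
      rw [Complex.norm_exp, Real.exp_le_one_iff, Complex.neg_re, r1 w hw, neg_nonpos]
      positivity) hz
    rwa [Complex.norm_exp, Real.exp_le_one_iff, Complex.neg_re, neg_nonpos] at this
  have r3 : ∀ z ∈ closedBall (0 : ℂ) 1, 1 + (U1 z).re ≤ ‖1 + U1 z‖ := fun z _ => by
    simpa using Complex.re_le_norm (1 + U1 z)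
  have r4 : ∀ z ∈ closedBall (0 : ℂ) 1, 0 < ‖1 + U1 z‖ := fun z hz => by
    linarith [r2 z hz, r3 z hz]
  have aO : An fun w => (1 + U1 w)⁻¹ := fun z hz =>
    (analyticAt_const.add (a1 z hz)).inv (norm_pos_iff.1 (r4 z hz))
  have r5 : ∀ w ∈ S, ‖(1 + U1 w)⁻¹‖ * (1 + κ * ‖h w - h y‖ ^ 2) ≤ 1 := fun w hw => by
    have hw' := sphere_subset_closedBall hw
    rw [norm_inv, ← r1 w hw, inv_mul_le_iff₀ (r4 w hw'), mul_one]; exact r3 w hw'
  refine ⟨_, aO, r5, ?_⟩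
  have c1 := aO.co
  have c2 := iq_co y0 y1
  have e1 := pois_mu (c := c) (G := fun w => 1 - (1 + U1 w)⁻¹) (analyticOnNhd_const.sub aO) y0 y1
  have e2 := pois_mu (c := c) a1 y0 y1
  have e3 : Jr c (fun w => (U1 w).re * ((1 - y) * iq y w)) = κ * V c h y := by
    rw [V, ← Jr_mul]; simp only [Jr, r1 _ (c.mem _), mul_assoc]
  have e4 : U1 y = ((U1 y).re : ℂ) := by
    apply Complex.ext <;> simp [hU1]
  have e5 := r2 y (rmem y0 y1)
  calc _ ≤ Jr c (fun w => 2 * ((1 - (1 + U1 w)⁻¹).re * ((1 - y) * iq y w))) := by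
        have c3 : ContinuousOn (fun w => (1 - (1 + U1 w)⁻¹).re) S :=
          Complex.continuous_re.comp_continuousOn (continuousOn_const.sub c1)
        refine Jr_mono (by fun_prop) (continuousOn_const.mul (c3.mul (by fun_prop))) fun w hw => ?_
        rw [← mul_assoc 2]
        refine mul_le_mul_of_nonneg_right ?_ (mul_nonneg (sub_nonneg.2 y1.le) (iq_nonneg _ _))
        have h2 : ‖(1 + U1 w)⁻¹‖ ≤ 1 := by
          have := r5 w hw
          have h3 : 0 ≤ ‖(1 + U1 w)⁻¹‖ * (κ * ‖h w - h y‖ ^ 2) := by positivity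
          linarith
        generalize (1 + U1 w)⁻¹ = o at h2 ⊢
        have h3 : ‖o‖ ^ 2 ≤ 1 := pow_le_one₀ (norm_nonneg _) h2
        rw [Complex.sq_norm, Complex.normSq_apply] at h3 ⊢
        simp only [Complex.sub_re, Complex.one_re, Complex.sub_im, Complex.one_im]
        nlinarith
    _ ≤ _ := by
        rw [Jr_mul, e1, mul_assoc, ← e3, e2]
        refine mul_le_mul_of_nonneg_left (mul_le_mul_of_nonneg_left ?_ (by positivity)) (by norm_num)
        rw [e4]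
        generalize (U1 y).re = u at e5 ⊢
        rw [← Complex.ofReal_one, ← Complex.ofReal_add, ← Complex.ofReal_inv, ← Complex.ofReal_sub,
          Complex.ofReal_re, sub_le_comm, inv_eq_one_div,
          le_div_iff₀ (by linarith)]
        nlinarith

lemma sq_add (a b : ℂ) : ‖a + b‖ ^ 2 ≤ 2 * ‖a‖ ^ 2 + 2 * ‖b‖ ^ 2 := by
  have := norm_add_le a b
  nlinarith [norm_nonneg (a + b), norm_nonneg a, norm_nonneg b, sq_nonneg (‖a‖ - ‖b‖)]

lemma step {x y : ℝ} (h0 : 0 ≤ x) (h1 : x < 1) (hy : y = (1 + x) / 2) {a h G U F F' : ℂ → ℂ}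
    (ha : An a) (hh : An h) (hG : An G) (hU : An U) {s s' C N κ : ℝ} (hF : FF F F' s' C)
    (hs : ∀ w ∈ S, ‖a w + conj (h w)‖ ≤ s) (hss : s ≤ s') (hκ : 0 ≤ κ)
    (hk : ∀ t, 0 ≤ t → s + t ≤ s' * (1 + κ * t ^ 2)) (haN : ∀ w ∈ S, ‖a w‖ ≤ N)
    (hN : ∀ w ∈ S, ‖h w‖ ≤ N) (hG1 : ∀ w ∈ S, ‖G w‖ ≤ 1)
    (hre : ∀ w ∈ S, (U w).re = ‖h w - h y‖ ^ 2) : ∃ Ψ, An Ψ ∧ (∀ w ∈ S, ‖Ψ w‖ ≤ C) ∧
    ‖(J c fun w => F (a w + conj (h w)) * G w * (ck y w - ck x w)) -
      (F (a y + conj (h y)) * G y - F (a x + conj (h x)) * G x) -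
      J c fun w => Ψ w * conj (h w - h y) * (ck y w - ck x w)‖ ≤
      (4 * C + 544 * C * N ^ 2 * κ) * V c h y + 2 * C * (1 + 4 * N) * ‖h y - h x‖ := by
  have y0 : 0 ≤ y := by linarith
  have y1 : y < 1 := by linarith
  have hN0 : 0 ≤ N := (norm_nonneg _).trans (hN 1 (by simp))
  have hs0 : 0 ≤ s := (norm_nonneg _).trans (hs 1 (by simp))
  have hC : 0 ≤ C := (norm_nonneg _).trans (hF.b 0 (by simp; linarith))
  obtain ⟨O, aO, hO, hW⟩ := outer (c := c) hU h0 h1 hy hκ hre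
  set W := Jr c (fun w => ‖1 - O w‖ ^ 2 * ((1 - y) * iq y w)) with hWd
  set A : ℂ → ℂ := fun w => a w + conj (h y) with hA
  have aA : An A := ha.add analyticOnNhd_const
  have bA : ∀ z ∈ closedBall (0 : ℂ) 1, ‖A z‖ ≤ 2 * N := fun z hz =>
    (norm_add_le _ _).trans (by
      rw [Complex.norm_conj]; linarith [maxA ha haN hz, maxA hh hN (rmem y0 y1)])
  have aB : An fun w => A w * O w := aA.mul aO
  have bB : ∀ z ∈ closedBall (0 : ℂ) 1, A z * O z ∈ closedBall (0 : ℂ) s' := fun z hz => by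
    refine mem_closedBall_zero_iff.2 (maxA aB (fun w hw => ?_) hz)
    have h2 : ‖A w‖ ≤ s + ‖h w - h y‖ := by
      have := norm_sub_le (a w + conj (h w)) (conj (h w - h y))
      rw [Complex.norm_conj] at this
      refine le_trans (le_of_eq (congrArg norm ?_)) (this.trans (by linarith [hs w hw]))
      simp only [hA, map_sub]; ring
    have h3 := hk _ (norm_nonneg (h w - h y))
    rw [norm_mul]
    calc _ ≤ s' * (1 + κ * ‖h w - h y‖ ^ 2) * ‖O w‖ := by gcongr; linarith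
      _ = s' * (‖O w‖ * (1 + κ * ‖h w - h y‖ ^ 2)) := by ring
      _ ≤ _ := mul_le_of_le_one_right (by linarith) (hO w hw)
  have aF : An fun w => F (A w * O w) := hF.an.comp aB bB
  have aF' : An fun w => F' (A w * O w) := hF.an'.comp aB bB
  set Φ : ℂ → ℂ := fun w => F (A w * O w) + F' (A w * O w) * (A w * (1 - O w)) with hΦ
  have aΦ : An Φ := aF.add (aF'.mul (aA.mul (analyticOnNhd_const.sub aO)))
  have key : ∀ z ∈ closedBall (0 : ℂ) 1, ‖a z + conj (h z)‖ ≤ s →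
      ‖F (a z + conj (h z)) - Φ z - F' (A z * O z) * conj (h z - h y)‖ ≤
        C * (2 * ‖h z - h y‖ ^ 2 + 8 * N ^ 2 * ‖1 - O z‖ ^ 2) := fun z hz hf => by
    have h2 := hF.rem _ (bB z hz) _ (mem_closedBall_zero_iff.2 (hf.trans hss))
    have h3 : a z + conj (h z) - A z * O z = conj (h z - h y) + A z * (1 - O z) := by
      simp only [hA, map_sub]; ring
    rw [h3] at h2
    refine le_trans (le_of_eq (congrArg norm (by simp only [hΦ]; ring))) (h2.trans ?_)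
    refine mul_le_mul_of_nonneg_left ((sq_add _ _).trans ?_) hC
    rw [Complex.norm_conj, norm_mul, mul_pow]
    have : ‖A z‖ ^ 2 ≤ (2 * N) ^ 2 := by gcongr; exact bA z hz
    nlinarith [sq_nonneg ‖1 - O z‖]
  have c1 := aO.co
  have c2 := iq_co y0 y1
  have c3 := hh.co
  have c4 := hG.co
  have c5 := aΦ.co
  have c6 := aF'.co
  have c7 := ck_co h0 h1
  have c8 := ck_co y0 y1
  have c9 : ContinuousOn (fun w => F (a w + conj (h w))) S := by
    have := ha.co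
    exact hF.an.continuousOn.comp (by fun_prop) fun w hw =>
      mem_closedBall_zero_iff.2 ((hs w hw).trans hss)
  have pt : ∀ z : ℝ, 0 ≤ z → z < 1 → (∀ w ∈ S, (1 - z ^ 2) * iq z w ≤ 16 * ((1 - y) * iq y w)) →
      ‖h z - h y‖ ≤ ‖h y - h x‖ → ‖(F (a z + conj (h z)) - Φ z) * G z‖ ≤
      C * (1 + 4 * N) * ‖h y - h x‖ + 128 * C * N ^ 2 * W := fun z z0 z1 hz hd => by
    have m := rmem z0 z1
    have h2 := key z m (pois_le c ha hh z0 z1 hs)
    have h3 : ‖1 - O z‖ ^ 2 ≤ 16 * W := by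
      have := poisson (c := c) (G := fun w => (1 - O w) ^ 2)
        ((analyticOnNhd_const.sub aO).pow 2) z0 z1
      rw [← norm_pow, ← this, hWd, ← Jr_mul]
      refine J_le (by fun_prop) fun w hw => ?_
      rw [norm_mul, norm_pow, Complex.norm_real,
        Real.norm_of_nonneg (mul_nonneg (by nlinarith) (iq_nonneg _ _)), mul_left_comm 16]
      exact mul_le_mul_of_nonneg_left (hz w hw) (by positivity)
    have h4 : ‖F' (A z * O z) * conj (h z - h y)‖ ≤ C * ‖h y - h x‖ := by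
      rw [norm_mul, Complex.norm_conj]; gcongr; exact hF.b' _ (bB z m)
    have h5 := two_le hh hN m (rmem y0 y1)
    have h6 : ‖h z - h y‖ ^ 2 ≤ 2 * N * ‖h y - h x‖ := by rw [sq]; gcongr
    have h7 := norm_sub_norm_le (F (a z + conj (h z)) - Φ z) (F' (A z * O z) * conj (h z - h y))
    have h8 : C * (2 * ‖h z - h y‖ ^ 2 + 8 * N ^ 2 * ‖1 - O z‖ ^ 2) ≤
        C * (2 * (2 * N * ‖h y - h x‖) + 8 * N ^ 2 * (16 * W)) := by gcongr
    rw [norm_mul]
    refine (mul_le_of_le_one_right (norm_nonneg _) (maxA hG hG1 m)).trans ?_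
    linarith
  have p1 := pt y y0 y1 (fun w _ => by
    have := iq_nonneg y w
    rw [← mul_assoc]; gcongr; nlinarith) (by simp)
  have p2 := pt x h0 h1 (fun w hw => by
    have := inv_cmp h0 h1 hy hw
    rw [iq_eq, iq_eq]
    calc _ ≤ (4 * (1 - y)) * (2 * ‖w - y‖⁻¹ * (2 * ‖w - y‖⁻¹)) := by gcongr <;> nlinarith
      _ = _ := by ring) (norm_sub_rev _ _).le
  refine ⟨fun w => F' (A w * O w) * G w, aF'.mul hG, fun w hw => ?_, ?_⟩
  · rw [norm_mul]
    exact (mul_le_of_le_one_right (norm_nonneg _) (hG1 w hw)).trans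
      (hF.b' _ (bB w (sphere_subset_closedBall hw)))
  have e1 : (J c fun w => Φ w * G w * (ck y w - ck x w)) = Φ y * G y - Φ x * G x := by
    simp only [mul_sub]
    rw [J_sub (by fun_prop) (by fun_prop), cauchy (aΦ.mul hG) y0 y1, cauchy (aΦ.mul hG) h0 h1]
  have p3 : ‖J c fun w => (F (a w + conj (h w)) - Φ w - F' (A w * O w) * conj (h w - h y)) * G w *
      (ck y w - ck x w)‖ ≤ 4 * C * V c h y + 16 * C * N ^ 2 * W := by
    rw [V, hWd, ← Jr_mul, ← Jr_mul, ← Jr_add (by fun_prop) (by fun_prop)]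
    refine J_le (by fun_prop) fun w hw => ?_
    rw [norm_mul, norm_mul]
    calc _ ≤ C * (2 * ‖h w - h y‖ ^ 2 + 8 * N ^ 2 * ‖1 - O w‖ ^ 2) * 1 *
          (2 * ((1 - y) * iq y w)) := by
          gcongr
          exacts [key w (sphere_subset_closedBall hw) (hs w hw), hG1 w hw, kd h0 h1 hy hw]
      _ = _ := by ring
  have d1 := (c9.mul c4).mul (c8.sub c7)
  have d2 := (c5.mul c4).mul (c8.sub c7)
  have d3 := ((c6.mul c4).mul (show ContinuousOn (fun w => conj (h w - h y)) S by fun_prop)).mul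
    (c8.sub c7)
  rw [J_congr (φ := fun w => F (a w + conj (h w)) * G w * (ck y w - ck x w) -
    Φ w * G w * (ck y w - ck x w) - F' (A w * O w) * G w * conj (h w - h y) * (ck y w - ck x w))
    fun w _ => by ring, J_sub (by exact d1.sub d2) (by exact d3),
    J_sub (by exact d1) (by exact d2), e1] at p3
  have p4 := (norm_add_le _ _).trans (add_le_add ((norm_sub_le _ _).trans (add_le_add p3 p1)) p2)
  refine le_trans (le_of_eq (congrArg norm (by ring))) (p4.trans ?_)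
  have : 272 * C * N ^ 2 * W ≤ 272 * C * N ^ 2 * (2 * κ * V c h y) := by gcongr
  linarith

noncomputable def KK (C N κ : ℝ) : ℝ := 4 * C + N * (18 * (8 * C)) +
  (4 * C + 544 * C * N ^ 2 * κ) * (N * (18 * (2 * N))) + 2 * C * (1 + 4 * N) * (N * (18 * 2))

lemma core {ρ : ℝ} (h0 : 0 ≤ ρ) (h1 : ρ < 1) {a h G F F' : ℂ → ℂ}
    (ha : An a) (hh : An h) (hG : An G) {s s' C N κ : ℝ} (hF : FF F F' s' C)
    (hs : ∀ w ∈ S, ‖a w + conj (h w)‖ ≤ s) (hss : s ≤ s') (hκ : 0 ≤ κ)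
    (hk : ∀ t, 0 ≤ t → s + t ≤ s' * (1 + κ * t ^ 2)) (haN : ∀ w ∈ S, ‖a w‖ ≤ N)
    (hN : ∀ w ∈ S, ‖h w‖ ≤ N) (hG1 : ∀ w ∈ S, ‖G w‖ ≤ 1)
    (hU : ∀ d : ℂ, ∃ U, An U ∧ ∀ w ∈ S, (U w).re = ‖h w - d‖ ^ 2) (H : Hyp c h ρ N) :
    ‖J c fun w => F (a w + conj (h w)) * G w * ck ρ w‖ ≤ KK C N κ := by
  obtain ⟨M, hM, hM'⟩ := exists_nat_pow_near (x := (1 - ρ)⁻¹) (y := 2)
    (one_le_inv₀ (by linarith) |>.2 (by linarith)) one_lt_two
  rw [le_inv_comm₀ (by positivity) (by linarith), inv_eq_one_div,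
    le_div_iff₀ (by positivity)] at hM
  rw [inv_lt_iff_one_lt_mul₀ (by linarith), pow_succ] at hM'
  set r : ℕ → ℝ := fun m => 1 - (1 - ρ) * 2 ^ M / 2 ^ m with hr'
  have hr : Sq r := ⟨by simp only [hr', pow_zero]; linarith,
    by simp only [hr', pow_zero]; linarith, fun m => by simp only [hr']; field_simp; ring⟩
  have hM0 : r 0 ≤ 1 / 2 := by simp only [hr', pow_zero]; linarith
  have hMr : r M = ρ := by simp only [hr']; field_simp; ring
  rw [← hMr] at H ⊢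
  have hN0 : 0 ≤ N := (norm_nonneg _).trans (hN 1 (by simp))
  have hs0 : 0 ≤ s := (norm_nonneg _).trans (hs 1 (by simp))
  have hC : 0 ≤ C := (norm_nonneg _).trans (hF.b 0 (by simp; linarith))
  choose U hU hU' using hU
  choose Ψ aΨ bΨ hΨ using fun m => step (c := c) (hr.ge m) (hr.lt m) (hr.hs m) ha hh hG
    (hU (h (r (m + 1)))) hF hs hss hκ hk haN hN hG1 (hU' _)
  have s1 := sum_K hr M hh H Ψ aΨ bΨ
  have s2 := sum_V hr M hh H hN hN0
  have s3 := sum_var hr M hh H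
  have c4 := hG.co
  have c9 : ContinuousOn (fun w => F (a w + conj (h w))) S := by
    have := ha.co
    have := hh.co
    exact hF.an.continuousOn.comp (by fun_prop) fun w hw =>
      mem_closedBall_zero_iff.2 ((hs w hw).trans hss)
  set P : ℕ → ℂ := fun m => J c fun w => F (a w + conj (h w)) * G w * ck (r m) w with hP
  set Q : ℕ → ℂ := fun m => F (a (r m) + conj (h (r m))) * G (r m) with hQ
  have hQ' : ∀ m, ‖Q m‖ ≤ C := fun m => by
    rw [hQ, norm_mul]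
    exact (mul_le_of_le_one_right (norm_nonneg _) (maxA hG hG1 (rmem (hr.ge m) (hr.lt m)))).trans
      (hF.b _ (mem_closedBall_zero_iff.2 ((pois_le c ha hh (hr.ge m) (hr.lt m) hs).trans hss)))
  have hP0 : ‖P 0‖ ≤ C * 1 * 2 := J_le' fun w hw => by
    rw [norm_mul, norm_mul, ck_norm hw]
    gcongr
    · exact hF.b _ (mem_closedBall_zero_iff.2 ((hs w hw).trans hss))
    · exact hG1 w hw
    · have := sub_ge hr.h0 hw
      rw [inv_le_comm₀ (by linarith) (by norm_num)]; linarith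
  have e1 : ∀ m, (J c fun w => F (a w + conj (h w)) * G w * (ck (r (m + 1)) w - ck (r m) w)) =
      P (m + 1) - P m := fun m => by
    simp only [mul_sub]
    exact J_sub ((c9.mul c4).mul (ck_co (hr.ge _) (hr.lt _)))
      ((c9.mul c4).mul (ck_co (hr.ge _) (hr.lt _)))
  simp only [e1] at hΨ
  have s4 := (norm_sum_le (range M) _).trans (sum_le_sum fun m _ => hΨ m)
  rw [sum_sub_distrib, sum_sub_distrib, sum_range_sub P, sum_range_sub Q, sum_add_distrib,
    ← mul_sum, ← mul_sum] at s4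
  have s5 := (norm_add_le _ _).trans (add_le_add s4 ((norm_sum_le _ _).trans s1))
  rw [sub_add_cancel] at s5
  have s6 := (norm_add_le _ _).trans (add_le_add ((norm_add_le _ _).trans
    (add_le_add s5 ((norm_sub_le _ _).trans (add_le_add (hQ' M) (hQ' 0))))) hP0)
  rw [sub_add_cancel, sub_add_cancel] at s6
  refine s6.trans ?_
  have t2 := mul_le_mul_of_nonneg_left s2 (by positivity : 0 ≤ 4 * C + 544 * C * N ^ 2 * κ)
  have t3 := mul_le_mul_of_nonneg_left s3 (by positivity : 0 ≤ 2 * C * (1 + 4 * N))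
  rw [KK]; linarith

end Pool.Agent.H.MP_e9aa5f_an
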