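import Pool.Agent.H.MP_e9aa5f_an.C
namespace Pool.Agent.H.MP_e9aa5f_an
open MeasureTheory Metric Pool.Agent.H.MP_ceba03_an ComplexConjugate Finset Filter Topology
open Pool.Agent.H.MP_535799_an

noncomputable def e (t : T) : ℂ := fourier 1 t

lemma e_cont : Continuous e := (fourier 1).continuous

lemma e_norm (t : T) : ‖e t‖ = 1 := Circle.norm_coe _

lemma e_mem (t : T) : e t ∈ S := mem_sphere_zero_iff_norm.2 (e_norm t)

lemma e_pow (n : ℕ) (t : T) : fourier n t = e t ^ n := by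
  induction n with
  | zero => simp
  | succ n ih => rw [Nat.cast_succ, fourier_add, ih, pow_succ, e]

lemma e_add (t s : T) : e (t + s) = e s * e t := by
  simp only [e, fourier_one, AddCircle.toCircle_add, Circle.coe_mul, mul_comm]

lemma mv0 {G : ℂ → ℂ} (h : An G) : ∫ t, G (e t) ∂μ = G 0 := by
  have h1 : DiffContOnCl ℂ G (ball 0 |(1 : ℝ)|) := by
    refine DifferentiableOn.diffContOnCl ?_
    rw [abs_one, closure_ball _ one_ne_zero]; exact h.differentiableOn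
  rw [← h1.circleAverage, AddCircle.integral_haarAddCircle,
    ← AddCircle.intervalIntegral_preimage 1 0, Real.circleAverage_def]
  have := intervalIntegral.smul_integral_comp_mul_left (a := 0) (b := 1)
    (fun θ => G (circleMap 0 1 θ)) (2 * Real.pi)
  simp only [mul_zero, mul_one] at this
  rw [← this, smul_smul, inv_mul_cancel₀ (by positivity), inv_one, zero_add]
  congr 2; funext x
  rw [e, fourier_coe_apply, circleMap]; congr 1; push_cast; ring_nf

lemma An.rot {G : ℂ → ℂ} (h : An G) {ζ : ℂ} (hζ : ζ ∈ S) : An fun w => G (ζ * w) :=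
  h.comp (analyticOnNhd_const.mul analyticOnNhd_id) fun w hw => by
    simpa [mem_sphere_zero_iff_norm.1 hζ] using hw

lemma S_mul {ζ w : ℂ} (hζ : ζ ∈ S) (hw : w ∈ S) : ζ * w ∈ S := by
  simp [mem_sphere_zero_iff_norm.1 hζ, mem_sphere_zero_iff_norm.1 hw]

lemma S_conj {ζ : ℂ} (hζ : ζ ∈ S) : conj ζ ∈ S := by simpa using hζ

noncomputable def cir {ζ : ℂ} (hζ : ζ ∈ S) : Cir where
  ε t := conj ζ * e t
  cont := continuous_const.mul e_cont
  mem t := S_mul (S_conj hζ) (e_mem t)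
  mv G hG := by simpa using mv0 (hG.rot (S_conj hζ))

noncomputable def kz (z : ℂ) (t : T) : ℂ := (1 - z * conj (e t))⁻¹

noncomputable def Pc (ψ : T → ℂ) (z : ℂ) : ℂ := ∫ t, ψ t * kz z t ∂μ

lemma polar {z : ℂ} (hz : z ∈ ball (0 : ℂ) 1) :
    ∃ (ρ : ℝ) (ζ : ℂ), 0 ≤ ρ ∧ ρ < 1 ∧ ζ ∈ S ∧ z = ρ * ζ :=
  ⟨‖z‖, Complex.exp (z.arg * Complex.I), norm_nonneg _, mem_ball_zero_iff.1 hz, by simp,
    (Complex.norm_mul_exp_arg_mul_I z).symm⟩

lemma pc_J {ρ : ℝ} {ζ : ℂ} (h0 : 0 ≤ ρ) (h1 : ρ < 1) (hζ : ζ ∈ S) (ψ : ℂ → ℂ) :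
    Pc (fun t => ψ (e t)) (ρ * ζ) = J (cir hζ) fun w => ψ (ζ * w) * ck ρ w := by
  unfold Pc J
  congr 1; funext t
  have h2 := (cir hζ).mem t
  have h3 := cj hζ
  have h4 := ck_conj h0 h1 h2
  have h5 : ζ * (cir hζ).ε t = e t := by
    change ζ * (conj ζ * e t) = _; linear_combination e t * h3
  beta_reduce
  rw [h5, ← Complex.conj_conj (ck _ _), h4, kz, k]
  simp [cir, mul_assoc]

lemma pc_an {G : ℂ → ℂ} (h : An G) {z : ℂ} (hz : z ∈ ball (0 : ℂ) 1) :
    Pc (fun t => G (e t)) z = G z := by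
  obtain ⟨ρ, ζ, h0, h1, hζ, rfl⟩ := polar hz
  rw [pc_J h0 h1 hζ, cauchy (h.rot hζ) h0 h1, mul_comm]

lemma kz_ne {z : ℂ} (hz : z ∈ ball (0 : ℂ) 1) (t : T) : 1 - z * conj (e t) ≠ 0 := by
  intro h
  have h2 : ‖z * conj (e t)‖ = 1 := by rw [← sub_eq_zero.1 h, norm_one]
  rw [norm_mul, Complex.norm_conj, e_norm, mul_one] at h2
  exact (mem_ball_zero_iff.1 hz).ne h2

lemma kz_cont {z : ℂ} (hz : z ∈ ball (0 : ℂ) 1) : Continuous (kz z) := by
  have := e_cont
  exact Continuous.inv₀ (by fun_prop) (kz_ne hz)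

def Bd (φ : T → ℂ) (B : ℝ) : Prop := AEStronglyMeasurable φ μ ∧ ∀ᵐ t ∂μ, ‖φ t‖ ≤ B

lemma Bd.int {φ : T → ℂ} {B : ℝ} (h : Bd φ B) : Integrable φ μ := .of_bound h.1 B h.2

lemma Bd.mul {φ ψ : T → ℂ} {B C : ℝ} (h : Bd φ B) (h' : Bd ψ C) :
    Bd (fun t => φ t * ψ t) (B * C) :=
  ⟨h.1.mul h'.1, by
    filter_upwards [h.2, h'.2] with t h1 h2
    rw [norm_mul]; exact mul_le_mul h1 h2 (norm_nonneg _) ((norm_nonneg _).trans h1)⟩

lemma Bd.sub {φ ψ : T → ℂ} {B C : ℝ} (h : Bd φ B) (h' : Bd ψ C) :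
    Bd (fun t => φ t - ψ t) (B + C) :=
  ⟨h.1.sub h'.1, by
    filter_upwards [h.2, h'.2] with t h1 h2
    exact (norm_sub_le _ _).trans (add_le_add h1 h2)⟩

lemma Bd.nonneg {φ : T → ℂ} {B : ℝ} (h : Bd φ B) : 0 ≤ B :=
  let ⟨_, ht⟩ := h.2.exists; (norm_nonneg _).trans ht

lemma bd_cont {φ : T → ℂ} (h : Continuous φ) : ∃ B, Bd φ B :=
  ⟨‖(⟨φ, h⟩ : C(T, ℂ))‖, h.aestronglyMeasurable,
    Eventually.of_forall (⟨φ, h⟩ : C(T, ℂ)).norm_coe_le_norm⟩

lemma bd_an {G : ℂ → ℂ} (h : An G) {B : ℝ} (hB : ∀ w ∈ S, ‖G w‖ ≤ B) : Bd (fun t => G (e t)) B :=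
  ⟨(h.co.comp_continuous e_cont e_mem).aestronglyMeasurable,
    Eventually.of_forall fun t => hB _ (e_mem t)⟩

noncomputable def fj (N : ℕ) (φ : T → ℂ) : C(T, ℂ) :=
  tp (Icc (-(N : ℤ)) N) fun m => w N m * fourierCoeff φ m

lemma co_L1 {φ : T → ℂ} (h : Integrable φ μ) (m : ℤ) : co m (h.toL1 φ) = fourierCoeff φ m :=
  congrFun (fourierCoeff_congr_ae h.coeFn_toL1) m

lemma fj_conv (N : ℕ) {φ : T → ℂ} (h : Integrable φ μ) (x : T) :
    fj N φ x = ∫ t, φ t * fe N (x - t) ∂μ := by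
  rw [MP_535799_an.repr (fe N) (Finset.Icc (-(N : ℤ)) N) (w_zero N)]
  simp only [fj, tp, ContinuousMap.sum_apply, ContinuousMap.smul_apply, smul_eq_mul, four_sub,
    Finset.mul_sum]
  rw [integral_finsetSum]
  · refine Finset.sum_congr rfl fun m _ => ?_
    rw [fourierCoeff, mul_right_comm, ← integral_const_mul]
    congr 1
    funext t
    simp only [w, smul_eq_mul]; ring
  · intro m _
    refine ((h.fourier_smul (-m)).const_mul (w N m * fourier m x)).congr ?_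
    filter_upwards with t
    simp only [w, smul_eq_mul]; ring

lemma fj_bd (N : ℕ) {φ : T → ℂ} {B : ℝ} (h : Bd φ B) (x : T) : ‖fj N φ x‖ ≤ B := by
  rw [fj_conv N h.int]
  refine (norm_integral_le_of_norm_le (g := fun t => B * ‖fe N (x - t)‖)
    (cint' (by fun_prop)) ?_).trans (le_of_eq ?_)
  · filter_upwards [h.2] with t ht
    rw [norm_mul]; gcongr
  · rw [integral_const_mul, integral_sub_left_eq_self (fun t => ‖fe N t‖), fe_norm, mul_one]

lemma fj_tend {φ : T → ℂ} (h : Integrable φ μ) :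
    Tendsto (fun N => ∫ t, ‖fj N φ t - φ t‖ ∂μ) atTop (𝓝 0) := by
  refine (tendsto_iff_norm_sub_tendsto_zero.1 (σ_tendsto (h.toL1 φ))).congr fun N => ?_
  rw [σ_apply, L1.norm_eq_integral_norm]
  simp only [co_L1]
  refine integral_congr_ae ?_
  filter_upwards [Lp.coeFn_sub (toL (fj N φ)) (h.toL1 φ), toL_ae (fj N φ), h.coeFn_toL1]
    with t h1 h2 h3
  rw [← h2, ← h3]; exact congrArg norm h1

lemma fj_lim {φ ψ : T → ℂ} (h : Integrable φ μ) {B L : ℝ} (hψ : Bd ψ B) {F : ℂ → ℂ}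
    (hF : ∀ N, Integrable (fun t => F (fj N φ t) * ψ t) μ)
    (hF' : Integrable (fun t => F (φ t) * ψ t) μ)
    (hL : ∀ N, ∀ᵐ t ∂μ, ‖F (fj N φ t) - F (φ t)‖ ≤ L * ‖fj N φ t - φ t‖) :
    Tendsto (fun N => ∫ t, F (fj N φ t) * ψ t ∂μ) atTop (𝓝 (∫ t, F (φ t) * ψ t ∂μ)) := by
  rw [tendsto_iff_norm_sub_tendsto_zero]
  refine squeeze_zero (fun _ => norm_nonneg _) (fun N => ?_)
    (by simpa using (fj_tend h).const_mul (B * L))
  rw [← integral_sub (hF N) hF', ← integral_const_mul]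
  obtain ⟨_, h2⟩ := bd_cont (fj N φ).continuous
  refine norm_integral_le_of_norm_le ((h2.int.sub h).norm.const_mul _) ?_
  filter_upwards [hL N, hψ.2] with t h3 h4
  rw [← sub_mul, norm_mul, mul_comm, mul_assoc]
  exact mul_le_mul h4 h3 (norm_nonneg _) hψ.nonneg

lemma fj_lim' {φ ψ : T → ℂ} (h : Integrable φ μ) {B : ℝ} (hψ : Bd ψ B) :
    Tendsto (fun N => ∫ t, fj N φ t * ψ t ∂μ) atTop (𝓝 (∫ t, φ t * ψ t ∂μ)) :=
  fj_lim (F := id) (L := 1) h hψ
    (fun N => let ⟨_, h2⟩ := bd_cont (fj N φ).continuous; (h2.mul hψ).int)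
    (h.mul_bdd hψ.1 hψ.2) fun N => by simp

lemma tp_split (F : Finset ℤ) (c : ℤ → ℂ) : ∃ p q : Polynomial ℂ, q.eval 0 = 0 ∧
    (∀ t, tp F c t = p.eval (e t) + conj (q.eval (e t))) ∧ ((∀ m < 0, c m = 0) → q = 0) := by
  induction F using Finset.induction_on with
  | empty => exact ⟨0, 0, by simp, by simp [tp], by simp⟩
  | insert m F hm ih =>
    obtain ⟨p, q, h1, h2, h3⟩ := ih
    have h4 : ∀ t, tp (insert m F) c t = c m * fourier m t + tp F c t := fun t => by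
      simp [tp, sum_insert hm]
    rcases le_or_gt 0 m with h | h
    · lift m to ℕ using h
      exact ⟨Polynomial.monomial m (c m) + p, q, h1, fun t => by
        rw [h4, h2, e_pow]; simp [add_assoc], h3⟩
    · obtain ⟨n, rfl⟩ : ∃ n : ℕ, m = -(n + 1 : ℕ) := ⟨(-m - 1).toNat, by omega⟩
      refine ⟨p, Polynomial.monomial (n + 1) (conj (c (-(n + 1 : ℕ)))) + q, by simp [h1],
        fun t => ?_, fun h5 => by rw [h5 _ h, h3 h5]; simp⟩
      rw [h4, h2, fourier_neg, e_pow]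
      simp only [Polynomial.eval_add, Polynomial.eval_monomial, map_add, map_mul, Complex.conj_conj]
      ring

lemma an_poly (p : Polynomial ℂ) : An fun w => p.eval w := fun _ _ =>
  p.differentiable.analyticAt _

def HI (g : T → ℂ) (B : ℝ) : Prop := Bd g B ∧ ∀ n < 0, fourierCoeff g n = 0

lemma hi_an {G : ℂ → ℂ} (h : An G) {B : ℝ} (hB : ∀ w ∈ S, ‖G w‖ ≤ B) : HI (fun t => G (e t)) B := by
  refine ⟨bd_an h hB, fun n hn => ?_⟩
  obtain ⟨k, rfl⟩ : ∃ k : ℕ, n = -(k + 1 : ℕ) := ⟨(-n - 1).toNat, by omega⟩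
  have := mv0 (G := fun w => w ^ (k + 1) * G w) ((analyticOnNhd_id.pow _).mul h)
  simpa only [fourierCoeff, neg_neg, e_pow, smul_eq_mul, zero_pow (Nat.succ_ne_zero k), zero_mul]
    using this

def TB (φ : T → ℂ) (N : ℝ) : Prop :=
  ∀ g B, HI g B → ∀ z ∈ ball (0 : ℂ) 1, ‖Pc (fun t => φ t * g t) z‖ ≤ N * B

def TBa (φ : T → ℂ) (N : ℝ) : Prop := ∀ G, An G → ∀ B, (∀ w ∈ S, ‖G w‖ ≤ B) →
  ∀ z ∈ ball (0 : ℂ) 1, ‖Pc (fun t => φ t * G (e t)) z‖ ≤ N * B

lemma TB.a {φ : T → ℂ} {N : ℝ} (h : TB φ N) : TBa φ N := fun _ hG _ hB => h _ _ (hi_an hG hB)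

lemma tb_of {φ : T → ℂ} {N s : ℝ} (hφ : Bd φ s) (h : ∀ (p : Polynomial ℂ) (B : ℝ),
    (∀ t, ‖p.eval (e t)‖ ≤ B) → ∀ z ∈ ball (0 : ℂ) 1,
      ‖Pc (fun t => φ t * p.eval (e t)) z‖ ≤ N * B) : TB φ N := by
  intro g B hg z hz
  obtain ⟨_, h2⟩ := bd_cont (kz_cont hz)
  have h3 := (fj_lim' hg.1.int (hφ.mul h2)).norm
  have h7 : ∀ g : T → ℂ, Pc (fun t => φ t * g t) z = ∫ t, g t * (φ t * kz z t) ∂μ := fun g => by
    unfold Pc; congr 1; funext t; ring
  rw [h7]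
  refine le_of_tendsto' h3 fun K => ?_
  obtain ⟨p, q, -, h4, h5⟩ := tp_split (Icc (-(K : ℤ)) K) fun m => w K m * fourierCoeff g m
  rw [h5 fun m hm => by simp [hg.2 m hm]] at h4
  have h6 : ∀ t, fj K g t = p.eval (e t) := fun t => by simpa [fj] using h4 t
  simp only [h6]
  rw [← h7]
  exact h p B (fun t => h6 t ▸ fj_bd K hg.1 t) z hz

lemma swap {φ : T → ℂ} (h : Integrable φ μ) {K : T → T → ℂ} (hK : Continuous K.uncurry) :
    ∫ x, ∫ t, φ t * K x t ∂μ ∂μ = ∫ t, φ t * ∫ x, K x t ∂μ ∂μ := by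
  simp only [← integral_const_mul]
  refine integral_integral_swap ?_
  exact (h.comp_snd μ).mul_bdd (c := ‖(⟨_, hK⟩ : C(T × T, ℂ))‖) hK.aestronglyMeasurable
    (Eventually.of_forall (⟨_, hK⟩ : C(T × T, ℂ)).norm_coe_le_norm)

lemma TBa.fj {φ : T → ℂ} (hφ : Integrable φ μ) {N : ℝ} (h : TBa φ N) (K : ℕ) :
    TBa (fj K φ) N := by
  intro G hG B hB z hz
  have c1 := hG.co.comp_continuous e_cont e_mem
  have c2 := kz_cont hz
  set Ψ : T → ℂ := fun t => G (e t) * kz z t with hΨ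
  have c3 : Continuous Ψ := c1.mul c2
  have e1 : Pc (fun t => MP_e9aa5f_an.fj K φ t * G (e t)) z =
      ∫ s, fe K s * ∫ t, φ t * Ψ (t + s) ∂μ ∂μ := by
    simp only [Pc, fj_conv K hφ, mul_assoc, ← integral_mul_const, ← integral_const_mul]
    simp only [mul_left_comm (fe K _) (φ _)]
    rw [swap hφ (K := fun x t => fe K (x - t) * Ψ x) (by fun_prop),
      swap hφ (K := fun s t => fe K s * Ψ (t + s)) (by fun_prop)]
    congr 1; funext t; congr 1
    rw [← integral_add_left_eq_self _ t]; simp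
  rw [e1]
  refine (norm_integral_le_of_norm_le (g := fun s => ‖fe K s‖ * (N * B))
    (cint' (by fun_prop)) (Eventually.of_forall fun s => ?_)).trans (le_of_eq ?_)
  · rw [norm_mul]
    gcongr
    have := h _ (hG.rot (e_mem s)) B (fun w hw => hB _ (S_mul (e_mem s) hw)) (z * conj (e s))
      (by simpa [e_norm] using hz)
    simpa only [Pc, hΨ, kz, e_add, map_mul, mul_assoc] using this
  · rw [integral_mul_const, fe_norm, one_mul]

lemma reU (p q : Polynomial ℂ) :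
    ∃ U, An U ∧ ∀ w ∈ S, (U w).re = (p.eval w * conj (q.eval w)).re := by
  induction p using Polynomial.induction_on' with
  | add p r hp hr =>
    obtain ⟨U, h1, h2⟩ := hp
    obtain ⟨U', h1', h2'⟩ := hr
    exact ⟨_, h1.add h1', fun w hw => by simp [h2 w hw, h2' w hw, add_mul]⟩
  | monomial j a =>
    induction q using Polynomial.induction_on' with
    | add p r hp hr =>
      obtain ⟨U, h1, h2⟩ := hp
      obtain ⟨U', h1', h2'⟩ := hr
      exact ⟨_, h1.add h1', fun w hw => by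
        rw [Pi.add_apply, Complex.add_re, h2 w hw, h2' w hw]; simp [mul_add]⟩
    | monomial k b =>
      simp only [Polynomial.eval_monomial, map_mul, map_pow]
      rcases le_total k j with h | h
      · obtain ⟨n, rfl⟩ := Nat.exists_eq_add_of_le h
        refine ⟨fun w => a * conj b * w ^ n, analyticOnNhd_const.mul (analyticOnNhd_id.pow n),
          fun w hw => congrArg _ ?_⟩
        have : conj w ^ k * w ^ k = 1 := by rw [← mul_pow, cj hw, one_pow]
        linear_combination (-a * conj b * w ^ n) * this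
      · obtain ⟨n, rfl⟩ := Nat.exists_eq_add_of_le h
        refine ⟨fun w => conj a * b * w ^ n, analyticOnNhd_const.mul (analyticOnNhd_id.pow n),
          fun w hw => ?_⟩
        rw [← Complex.conj_re]
        congr 1
        have : conj w ^ j * w ^ j = 1 := by rw [← mul_pow, cj hw, one_pow]
        simp only [map_mul, map_pow, Complex.conj_conj]
        linear_combination (-a * conj b * conj w ^ n) * this

end Pool.Agent.H.MP_e9aa5f_an
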