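import Pool.Agent.H.MP_e9aa5f_an.D
namespace Pool.Agent.H.MP_e9aa5f_an
open MeasureTheory Metric Pool.Agent.H.MP_ceba03_an ComplexConjugate Finset Filter Topology
open Pool.Agent.H.MP_535799_an

lemma exists_FF {F : ℂ → ℂ} {s R : ℝ} (hR : s < R) (hF : DifferentiableOn ℂ F (ball 0 R)) :
    ∃ C, FF F (deriv F) s C := by
  have h0 : AnalyticOnNhd ℂ F (closedBall 0 s) :=
    (hF.analyticOnNhd isOpen_ball).mono (closedBall_subset_ball hR)
  have h1 := h0.deriv
  have h2 := h1.deriv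
  obtain ⟨C0, b0⟩ := (isCompact_closedBall (0 : ℂ) s).exists_bound_of_continuousOn h0.continuousOn
  obtain ⟨C1, b1⟩ := (isCompact_closedBall (0 : ℂ) s).exists_bound_of_continuousOn h1.continuousOn
  obtain ⟨C2, b2⟩ := (isCompact_closedBall (0 : ℂ) s).exists_bound_of_continuousOn h2.continuousOn
  refine ⟨max C0 (max C1 C2), h0, h1, fun x hx => (b0 x hx).trans (le_max_left _ _),
    fun x hx => (b1 x hx).trans ((le_max_left _ _).trans (le_max_right _ _)), fun x hx y hy => ?_⟩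
  have hC : 0 ≤ C2 := (norm_nonneg _).trans (b2 x hx)
  have h3 := Convex.norm_image_sub_le_of_norm_hasDerivWithin_le (𝕜 := ℂ)
    (f := fun z => F z - deriv F x * z) (f' := fun z => deriv F z - deriv F x)
    (s := closedBall 0 s ∩ closedBall x ‖y - x‖) (C := C2 * ‖y - x‖) (x := x) (y := y)
    (fun z hz => by
      simpa using ((h0 z hz.1).differentiableAt.hasDerivAt.fun_sub
        ((hasDerivAt_id z).const_mul (deriv F x))).hasDerivWithinAt)
    (fun z hz => by
      refine (Convex.norm_image_sub_le_of_norm_deriv_le (fun z hz => (h1 z hz).differentiableAt)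
        b2 (convex_closedBall _ _) hx hz.1).trans ?_
      gcongr; exact mem_closedBall_iff_norm.1 hz.2)
    ((convex_closedBall _ _).inter (convex_closedBall _ _)) ⟨hx, by simp⟩
    ⟨hy, mem_closedBall_iff_norm.2 le_rfl⟩
  refine le_trans (le_of_eq (congrArg norm (by ring))) (h3.trans ?_)
  rw [mul_assoc, ← sq]; gcongr
  exact (le_max_right _ _).trans (le_max_right _ _)

lemma maxS {G : ℂ → ℂ} (h : An G) {B : ℝ} (hB : ∀ z ∈ ball (0 : ℂ) 1, ‖G z‖ ≤ B) :
    ∀ w ∈ S, ‖G w‖ ≤ B := fun w hw => by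
  have h1 : w ∈ closure (ball (0 : ℂ) 1) := by
    rw [closure_ball _ one_ne_zero]; exact sphere_subset_closedBall hw
  exact ContinuousWithinAt.closure_le h1
    (h w (sphere_subset_closedBall hw)).continuousAt.norm.continuousWithinAt
    continuousWithinAt_const hB

lemma e_surj {w : ℂ} (hw : w ∈ S) : ∃ t, e t = w := by
  obtain ⟨t, ht⟩ := (AddCircle.homeomorphCircle (T := 1) one_ne_zero).surjective ⟨w, hw⟩
  rw [AddCircle.homeomorphCircle_apply] at ht
  exact ⟨t, by rw [e, fourier_one, ht]⟩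

lemma pc_add {φ ψ : T → ℂ} {B C : ℝ} (h : Bd φ B) (h' : Bd ψ C) {z : ℂ} (hz : z ∈ ball (0 : ℂ) 1) :
    Pc (fun t => φ t + ψ t) z = Pc φ z + Pc ψ z := by
  obtain ⟨_, h2⟩ := bd_cont (kz_cont hz)
  simp only [Pc, add_mul]
  exact integral_add (h.mul h2).int (h'.mul h2).int

lemma poly_case {p q : Polynomial ℂ} (hq : q.eval 0 = 0) {F F' : ℂ → ℂ} {s s' C N κ : ℝ}
    (hF : FF F F' s' C) (hs : ∀ t, ‖p.eval (e t) + conj (q.eval (e t))‖ ≤ s) (hss : s ≤ s')
    (hκ : 0 ≤ κ) (hk : ∀ t, 0 ≤ t → s + t ≤ s' * (1 + κ * t ^ 2))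
    (h : TBa (fun t => p.eval (e t) + conj (q.eval (e t))) N) {G : ℂ → ℂ} (hG : An G)
    (hG1 : ∀ w ∈ S, ‖G w‖ ≤ 1) {z : ℂ} (hz : z ∈ ball (0 : ℂ) 1) :
    ‖Pc (fun t => F (p.eval (e t) + conj (q.eval (e t))) * G (e t)) z‖ ≤ KK C (2 * N + s) κ := by
  have ap := an_poly p
  have aq := an_poly q
  have cq : Continuous fun t => conj (q.eval (e t)) := by have := e_cont; fun_prop
  obtain ⟨_, bq⟩ := bd_cont cq
  obtain ⟨_, bp⟩ := bd_cont (φ := fun t => p.eval (e t)) (ap.co.comp_continuous e_cont e_mem)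
  have hs' : ∀ w ∈ S, ‖p.eval w + conj (q.eval w)‖ ≤ s := fun w hw => by
    obtain ⟨t, rfl⟩ := e_surj hw; exact hs t
  have hs0 : 0 ≤ s := (norm_nonneg _).trans (hs 0)
  have hp : ∀ w ∈ S, ‖p.eval w‖ ≤ N := maxS ap fun z hz => by
    have h1 := h (fun _ => 1) analyticOnNhd_const 1 (by simp) z hz
    simp only [mul_one] at h1
    have h2 := mv0 (G := fun w => q.eval w * (1 - conj z * w)⁻¹) (aq.mul fun w hw =>
      (analyticAt_const.sub (analyticAt_const.mul analyticAt_id)).inv fun (h0 : 1 - conj z * w = 0) => by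
        have h2 : ‖conj z * w‖ = 1 := by rw [← sub_eq_zero.1 h0, norm_one]
        rw [norm_mul, Complex.norm_conj] at h2
        nlinarith [mem_closedBall_zero_iff.1 hw, mem_ball_zero_iff.1 hz, norm_nonneg z])
    have h3 : Pc (fun t => conj (q.eval (e t))) z = 0 := by
      have := congrArg conj h2
      rw [← integral_conj] at this
      simpa [Pc, kz, hq] using this
    rwa [pc_add bp bq hz, h3, add_zero, pc_an ap hz] at h1
  have hN0 : 0 ≤ N := (norm_nonneg _).trans (hp 1 (by simp))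
  obtain ⟨ρ, ζ, h0, h1, hζ, rfl⟩ := polar hz
  rw [pc_J h0 h1 hζ fun w => F (p.eval w + conj (q.eval w)) * G w]
  refine core h0 h1 (ap.rot hζ) (aq.rot hζ) (hG.rot hζ) hF (fun w hw => hs' _ (S_mul hζ hw)) hss
    hκ hk (fun w hw => (hp _ (S_mul hζ hw)).trans (by linarith)) (fun w hw => ?_)
    (fun w hw => hG1 _ (S_mul hζ hw)) (fun d => ?_) fun G' aG' B hB => ?_
  · have := norm_sub_le (p.eval (ζ * w) + conj (q.eval (ζ * w))) (p.eval (ζ * w))
    rw [add_sub_cancel_left, Complex.norm_conj] at this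
    linarith [hs' _ (S_mul hζ hw), hp _ (S_mul hζ hw)]
  · obtain ⟨U, h2, h3⟩ := reU (q - Polynomial.C d) (q - Polynomial.C d)
    refine ⟨_, h2.rot hζ, fun w hw => ?_⟩
    rw [h3 _ (S_mul hζ hw), Complex.mul_conj', ← Complex.ofReal_pow, Complex.ofReal_re]; simp
  · have a2 := aG'.rot (S_conj hζ)
    have b2 : ∀ w ∈ S, ‖G' (conj ζ * w)‖ ≤ B := fun w hw => hB _ (S_mul (S_conj hζ) hw)
    have hB0 : 0 ≤ B := (norm_nonneg _).trans (hB 1 (by simp))
    have h2 := h _ a2 B b2 _ hz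
    simp only [add_mul] at h2
    rw [pc_add (bp.mul (bd_an a2 b2)) (bq.mul (bd_an a2 b2)) hz,
      pc_an (ap.mul a2) hz, pc_J h0 h1 hζ fun w => conj (q.eval w) * G' (conj ζ * w)] at h2
    have h3 := maxA (ap.mul a2) (B := N * B) (fun w hw => by
      rw [norm_mul]; exact mul_le_mul (hp w hw) (b2 w hw) (norm_nonneg _) hN0)
      (ball_subset_closedBall hz)
    have h4 := (norm_sub_le _ _).trans (add_le_add h2 h3)
    rw [add_sub_cancel_left] at h4
    simp only [← mul_assoc, cj hζ, one_mul] at h4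
    simp only [mul_comm (G' _)]
    nlinarith

lemma FF.bd {F F' : ℂ → ℂ} {s' C : ℝ} (hF : FF F F' s' C) {φ : T → ℂ} (h : Bd φ s') :
    Bd (fun t => F (φ t)) C := by
  classical
  have h1 : ∀ᵐ t ∂μ, φ t ∈ closedBall (0 : ℂ) s' := by simpa using h.2
  refine ⟨?_, h1.mono fun t ht => hF.b _ ht⟩
  have h2 : Measurable ((closedBall (0 : ℂ) s').piecewise F 0) :=
    hF.an.continuousOn.measurable_piecewise continuousOn_const measurableSet_closedBall
  refine (h2.comp_aemeasurable h.1.aemeasurable).aestronglyMeasurable.congr ?_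
  filter_upwards [h1] with t ht
  simp [ht]

lemma Bd.mono {φ : T → ℂ} {B C : ℝ} (h : Bd φ B) (hC : B ≤ C) : Bd φ C :=
  ⟨h.1, h.2.mono fun _ ht => ht.trans hC⟩

theorem main {φ : T → ℂ} {s R N : ℝ} (hφ : Bd φ s) (h : TB φ N) {F : ℂ → ℂ} (hR : s < R)
    (hF : DifferentiableOn ℂ F (ball 0 R)) :
    ∃ C K, Bd (fun t => F (φ t)) C ∧ TB (fun t => F (φ t)) K := by
  have hs0 := hφ.nonneg
  obtain ⟨s', h1, h2⟩ := exists_between hR
  obtain ⟨C, hC⟩ := exists_FF h2 hF
  have hb := hC.bd (hφ.mono h1.le)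
  set κ := 1 / (4 * s' * (s' - s)) with hκ
  have hd : 0 < s' - s := by linarith
  have hs' : 0 < s' := by linarith
  have hk : ∀ t, 0 ≤ t → s + t ≤ s' * (1 + κ * t ^ 2) := fun t _ => by
    have : s' * (1 + κ * t ^ 2) - (s + t) = (t - 2 * (s' - s)) ^ 2 / (4 * (s' - s)) := by
      rw [hκ]; field_simp; ring
    have : 0 ≤ (t - 2 * (s' - s)) ^ 2 / (4 * (s' - s)) := by positivity
    linarith
  have H1 : ∀ G, An G → (∀ w ∈ S, ‖G w‖ ≤ 1) → ∀ z ∈ ball (0 : ℂ) 1,
      ‖Pc (fun t => F (φ t) * G (e t)) z‖ ≤ KK C (2 * N + s) κ := fun G hG hG1 z hz => by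
    obtain ⟨_, b2⟩ := bd_cont (kz_cont hz)
    have b3 := (bd_an hG hG1).mul b2
    have b4 : ∀ K, Bd (fj K φ) s' := fun K => ⟨(fj K φ).continuous.aestronglyMeasurable,
      Eventually.of_forall fun t => (fj_bd K hφ t).trans h1.le⟩
    have h3 := fj_lim (F := F) (L := C + C * (2 * s')) hφ.int b3
      (fun K => ((hC.bd (b4 K)).mul b3).int) (hb.mul b3).int fun K => by
        filter_upwards [hφ.2] with t ht
        have m1 := mem_closedBall_zero_iff.2 (ht.trans h1.le)
        have m2 := (fj_bd K hφ t).trans h1.le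
        have h4 := hC.rem _ m1 _ (mem_closedBall_zero_iff.2 m2)
        have h5 := norm_sub_norm_le (F (fj K φ t) - F (φ t)) (deriv F (φ t) * (fj K φ t - φ t))
        have h6 := hC.b' _ m1
        have h7 : ‖fj K φ t - φ t‖ ≤ 2 * s' := (norm_sub_le _ _).trans (by linarith)
        have h8 := hb.nonneg
        rw [norm_mul] at h5
        have h9 : C * ‖fj K φ t - φ t‖ ^ 2 ≤ C * (2 * s' * ‖fj K φ t - φ t‖) := by
          rw [sq]; gcongr
        nlinarith [norm_nonneg (fj K φ t - φ t)]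
    simp only [Pc, mul_assoc]
    refine le_of_tendsto' h3.norm fun K => ?_
    obtain ⟨p, q, h4, h5, -⟩ := tp_split (Icc (-(K : ℤ)) K) fun m => w K m * fourierCoeff φ m
    have h6 : ⇑(fj K φ) = fun t => p.eval (e t) + conj (q.eval (e t)) := funext h5
    have := poly_case h4 hC (fun t => by simpa only [h6] using fj_bd K hφ t) h1.le
      (by positivity) hk (h6 ▸ h.a.fj hφ.int K) hG hG1 hz
    simpa only [Pc, mul_assoc, h6] using this
  refine ⟨C, KK C (2 * N + s) κ, hb, tb_of hb fun p B hB z hz => ?_⟩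
  rcases ((norm_nonneg _).trans (hB 0)).eq_or_lt with rfl | hB0
  · simp [Pc, fun t => norm_le_zero_iff.1 (hB t)]
  · have := H1 (fun w => (B : ℂ)⁻¹ * p.eval w) (analyticOnNhd_const.mul (an_poly p)) (fun w hw => by
      obtain ⟨t, rfl⟩ := e_surj hw
      rw [norm_mul, norm_inv, Complex.norm_real, Real.norm_of_nonneg hB0.le, inv_mul_le_iff₀ hB0,
        mul_one]; exact hB t) z hz
    simp only [Pc, mul_left_comm _ (B : ℂ)⁻¹, mul_assoc, integral_const_mul] at this ⊢
    rwa [norm_mul, norm_inv, Complex.norm_real, Real.norm_of_nonneg hB0.le, inv_mul_le_iff₀ hB0,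
      mul_comm] at this

lemma pc_sum {ψ : T → ℂ} (h : Integrable ψ μ) {z : ℂ} (hz : z ∈ ball (0 : ℂ) 1) :
    HasSum (fun n : ℕ => fourierCoeff ψ n * z ^ n) (Pc ψ z) := by
  have h1 : HasSum (fun n : ℕ => z ^ n • (fourier (-(n : ℤ)) : C(T, ℂ))) ⟨kz z, kz_cont hz⟩ := by
    have h2 : Summable fun n : ℕ => z ^ n • (fourier (-(n : ℤ)) : C(T, ℂ)) := by
      refine .of_norm ?_
      simpa [norm_smul, fourier_norm] using
        summable_geometric_of_lt_one (norm_nonneg z) (mem_ball_zero_iff.1 hz)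
    convert h2.hasSum
    ext t
    refine (hasSum_geometric_of_norm_lt_one (ξ := z * conj (e t))
      (by simpa [e_norm] using hz)).unique ?_
    convert! (ContinuousMap.evalCLM ℂ t).hasSum h2.hasSum using 2
    · change _ = z ^ _ * fourier _ t
      rw [fourier_neg, e_pow, mul_pow, map_pow]
  convert (P (h.toL1 ψ)).hasSum h1 using 2
  · rw [map_smul, P_fourier, neg_neg, co_L1, smul_eq_mul, mul_comm]
  · rw [P_apply, Pc]
    refine integral_congr_ae ?_
    filter_upwards [h.coeFn_toL1] with t ht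
    rw [ht, mul_comm]; rfl

lemma pc_congr {φ ψ : T → ℂ} (h : Integrable φ μ) (h' : Integrable ψ μ)
    (H : ∀ n : ℤ, 0 ≤ n → fourierCoeff φ n = fourierCoeff ψ n) {z : ℂ} (hz : z ∈ ball (0 : ℂ) 1) :
    Pc φ z = Pc ψ z :=
  (pc_sum h hz).unique (by simpa only [H _ (Int.natCast_nonneg _)] using pc_sum h' hz)

lemma tb_one : TB (fun _ => 1) 1 :=
  tb_of (s := 1) ⟨aestronglyMeasurable_const, by simp⟩ fun p B hB z hz => by
    simp only [one_mul]
    rw [pc_an (an_poly p) hz]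
    exact maxA (an_poly p) (fun w hw => by obtain ⟨t, rfl⟩ := e_surj hw; exact hB t)
      (ball_subset_closedBall hz)

lemma pc_HI {g : T → ℂ} {B : ℝ} (h : HI g B) {z : ℂ} (hz : z ∈ ball (0 : ℂ) 1) : ‖Pc g z‖ ≤ B := by
  simpa using tb_one g B h z hz

lemma bd_lim {g : T → ℂ} (h : Integrable g μ) {C : ℝ} (hC : ∀ N t, ‖fj N g t‖ ≤ C) : Bd g C := by
  refine ⟨h.1, ?_⟩
  have h1 : Integrable (fun t => max (‖g t‖ - C) 0) μ := (h.norm.sub (integrable_const C)).pos_part
  have h2 : ∫ t, max (‖g t‖ - C) 0 ∂μ ≤ 0 := ge_of_tendsto' (fj_tend h) fun N => by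
    obtain ⟨_, h3⟩ := bd_cont (fj N g).continuous
    refine integral_mono h1 (h3.int.sub h).norm fun t => max_le ?_ (norm_nonneg _)
    have := norm_sub_norm_le (g t) (fj N g t)
    rw [norm_sub_rev] at this
    linarith [hC N t]
  have h3 := (integral_eq_zero_iff_of_nonneg (fun t => le_max_right _ _) h1).1
    (le_antisymm h2 (integral_nonneg fun t => le_max_right _ _))
  filter_upwards [h3] with t ht
  have := le_max_left (‖g t‖ - C) 0
  simp only [Pi.zero_apply] at ht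
  linarith

lemma bdry {ψ : T → ℂ} {B C : ℝ} (h : Bd ψ B) (hC : ∀ z ∈ ball (0 : ℂ) 1, ‖Pc ψ z‖ ≤ C) :
    ∃ g, HI g C ∧ ∀ n : ℤ, 0 ≤ n → fourierCoeff g n = fourierCoeff ψ n := by
  have m2 : MemLp ψ 2 μ := .of_bound h.1 B h.2
  set c : ℤ → ℂ := fun n => if 0 ≤ n then fourierCoeff ψ n else 0 with hc
  have m3 : Memℓp c 2 := (lp.memℓp (fourierBasis.repr (m2.toLp ψ))).mono' fun n => by
    rw [fourierBasis_repr, fourierCoeff_congr_ae m2.coeFn_toLp, hc]
    dsimp only; split_ifs <;> simp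
  set g := (fourierBasis (T := 1)).repr.symm ⟨c, m3⟩ with hg
  have h1 : ∀ n, fourierCoeff g n = c n := fun n => by
    rw [← fourierBasis_repr, hg, LinearIsometryEquiv.apply_symm_apply]
  refine ⟨g, ⟨bd_lim ((Lp.memLp g).integrable (by norm_num)) fun N t => ?_,
    fun n hn => by simp [h1, hc, hn]⟩, fun n hn => by simp [h1, hc, hn]⟩
  have h2 : ∀ ρ : ℝ, 0 ≤ ρ → ρ < 1 →
      ‖∑ m ∈ Icc (-(N : ℤ)) N, (w N m * (c m * ρ ^ m.toNat)) * fourier m t‖ ≤ C := by
    intro ρ h0 h1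
    have hz : ∀ t, (ρ : ℂ) * e t ∈ ball (0 : ℂ) 1 := fun t => by
      simp [e_norm, abs_of_nonneg h0, h1]
    have h2 : Summable fun n : ℕ => (fourierCoeff ψ n * ρ ^ n) • (fourier (n : ℤ) : C(T, ℂ)) := by
      refine .of_norm_bounded ((summable_geometric_of_lt_one h0 h1).mul_left ‖h.int.toL1 ψ‖)
        fun n => ?_
      rw [norm_smul, fourier_norm, mul_one, norm_mul, norm_pow, Complex.norm_real,
        Real.norm_of_nonneg h0, ← co_L1 h.int]
      gcongr; exact co_le _ _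
    set u := ∑' n : ℕ, (fourierCoeff ψ n * ρ ^ n) • (fourier (n : ℤ) : C(T, ℂ))
    have h3 : Bd u C := ⟨u.continuous.aestronglyMeasurable, Eventually.of_forall fun t => by
      refine le_trans (le_of_eq (congrArg norm ?_)) (hC _ (hz t))
      refine HasSum.unique ?_ (pc_sum h.int (hz t))
      convert (ContinuousMap.evalCLM ℂ t).hasSum h2.hasSum using 2
      · simp [e_pow, mul_pow, mul_assoc, -fourier_apply]
      · rfl⟩
    have h4 : ∀ m, fourierCoeff u m = c m * ρ ^ m.toNat := fun m => by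
      have := ((co m).comp toL).hasSum h2.hasSum
      simp only [ContinuousLinearMap.comp_apply, map_smul, co_fourier] at this
      rw [← co_toL]
      refine this.unique ?_
      rcases lt_or_ge m 0 with hm | hm
      · convert hasSum_zero using 2
        · rw [if_neg (by omega), smul_zero]
        · simp [hc, hm]
      · lift m to ℕ using hm
        convert hasSum_single (f := fun n : ℕ => (fourierCoeff ψ n * (ρ : ℂ) ^ n) •
          (if (m : ℤ) = n then (1 : ℂ) else 0)) m fun n hn => ?_ using 1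
        · simp [hc]
        · rw [if_neg (by omega), smul_zero]
    simpa only [fj, tp, h4, ContinuousMap.sum_apply, ContinuousMap.smul_apply, smul_eq_mul]
      using fj_bd N h3 t
  have h3 : ContinuousAt (fun ρ : ℝ =>
      ‖∑ m ∈ Icc (-(N : ℤ)) N, (w N m * (c m * ρ ^ m.toNat)) * fourier m t‖) 1 := by fun_prop
  have h4 := le_of_tendsto (h3.tendsto.mono_left (nhdsWithin_le_nhds (s := Set.Iio 1))) (by
    filter_upwards [Ioo_mem_nhdsLT (show (0 : ℝ) < 1 by norm_num)] with ρ hρ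
    exact h2 ρ hρ.1.le hρ.2)
  simpa only [fj, tp, h1, ContinuousMap.sum_apply, ContinuousMap.smul_apply, smul_eq_mul,
    Complex.ofReal_one, one_pow, mul_one] using h4

end Pool.Agent.H.MP_e9aa5f_an
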