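import Pool.Agent.H.MP_e9aa5f_an.E
namespace Pool.Agent.H.MP_e9aa5f_an
open MeasureTheory Metric Pool.Agent.H.MP_ceba03_an ComplexConjugate Finset Filter Topology
open Pool.Agent.H.MP_535799_an Pointwise

lemma bd_top {φ : T → ℂ} (h1 : AEStronglyMeasurable φ μ) (h2 : eLpNorm φ ⊤ μ < ⊤) :
    Bd φ (eLpNorm φ ⊤ μ).toReal := ⟨h1, by
  filter_upwards [ae_le_eLpNormEssSup (f := φ) (μ := μ)] with t ht
  rw [← toReal_enorm]; exact ENNReal.toReal_mono h2.ne ht⟩

def HH (g : T → ℂ) : Prop := ∃ B, HI g B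

lemma HH_iff (g : T → ℂ) : (AEStronglyMeasurable g μ ∧ eLpNorm g ⊤ μ < ⊤ ∧
    ∀ n : ℤ, n < 0 → fourierCoeff g n = 0) ↔ HH g :=
  ⟨fun h => ⟨_, bd_top h.1 h.2.1, h.2.2⟩, fun ⟨B, h⟩ =>
    ⟨h.1.1, (memLp_top_of_bound h.1.1 B h.1.2).2, h.2⟩⟩

lemma bd_four (n : ℤ) : Bd (fourier n) 1 :=
  ⟨(fourier n).continuous.aestronglyMeasurable, Eventually.of_forall fun _ =>
    (Circle.norm_coe _).le⟩

lemma bd_const (c : ℂ) : Bd (fun _ => c) ‖c‖ := ⟨aestronglyMeasurable_const, by simp⟩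

lemma fc_sub {φ ψ : T → ℂ} (h : Integrable φ μ) (h' : Integrable ψ μ) (n : ℤ) :
    fourierCoeff (fun t => φ t - ψ t) n = fourierCoeff φ n - fourierCoeff ψ n := by
  simp only [fourierCoeff, smul_sub]
  exact integral_sub (h.fourier_smul _) (h'.fourier_smul _)

lemma mul_spec {u ψ : T → ℂ} {B C : ℝ} (hu : Bd u B) (hψ : Bd ψ C) (n : ℤ)
    (h : ∀ m, fourierCoeff u m ≠ 0 → fourierCoeff ψ (n - m) = 0) :
    fourierCoeff (fun t => u t * ψ t) n = 0 := by
  have h1 := fj_lim' hu.int ((bd_four (-n)).mul hψ)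
  have h2 : ∀ K, ∫ t, fj K u t * (fourier (-n) t * ψ t) ∂μ = 0 := fun K => by
    simp only [fj, tp, ContinuousMap.sum_apply, ContinuousMap.smul_apply, smul_eq_mul, sum_mul,
      mul_assoc]
    rw [integral_finsetSum _ fun m _ =>
      ((((bd_four m).mul ((bd_four (-n)).mul hψ)).int.const_mul _).const_mul _)]
    refine sum_eq_zero fun m _ => ?_
    rw [integral_const_mul, integral_const_mul]
    by_cases hm : fourierCoeff u m = 0
    · simp [hm]
    · have := h m hm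
      simp only [fourierCoeff, neg_sub, sub_eq_add_neg m, fourier_add, smul_eq_mul,
        mul_assoc] at this
      rw [this]; simp
  simp only [h2, tendsto_const_nhds_iff] at h1
  simp only [fourierCoeff, smul_eq_mul, mul_left_comm (fourier (-n) _)]
  exact h1.symm

lemma fc_one {n : ℤ} (hn : n ≠ 0) : fourierCoeff (fun _ : T => (1 : ℂ)) n = 0 := by
  have := congrFun (fourierCoeff_fourier (T := 1) 0) n
  rw [Pi.single_eq_of_ne hn] at this
  convert! this using 2
  funext t; simp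

lemma exp_spec {φ : T → ℂ} {B : ℝ} (h : Bd φ B) (A : AddSubmonoid ℤ)
    (hA : ∀ m, m ∉ A → fourierCoeff φ m = 0) :
    ∀ m, m ∉ A → fourierCoeff (fun t => Complex.exp (φ t)) m = 0 := by
  have h1 : ∀ k : ℕ, Bd (fun t => φ t ^ k) (B ^ k) ∧
      ∀ m, m ∉ A → fourierCoeff (fun t => φ t ^ k) m = 0 := fun k => by
    induction k with
    | zero => exact ⟨by simpa using bd_const 1, fun m hm => by
        simpa using fc_one (n := m) fun h0 => hm (h0 ▸ A.zero_mem)⟩
    | succ k ih =>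
      simp only [pow_succ']
      refine ⟨h.mul ih.1, fun n hn => mul_spec h ih.1 n fun m hm => ih.2 _ fun h2 => hn ?_⟩
      simpa using A.add_mem h2 (not_imp_comm.1 (hA m) hm)
  intro m hm
  have h2 : HasSum (fun k : ℕ => ∫ t, ((k.factorial : ℂ))⁻¹ * (fourier (-m) t * φ t ^ k) ∂μ)
      (∫ t, fourier (-m) t * Complex.exp (φ t) ∂μ) := by
    refine hasSum_integral_of_dominated_convergence (fun k _ => B ^ k / k.factorial)
      (fun k => ?_) (fun k => ?_) (Eventually.of_forall fun _ => ?_) (integrable_const _)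
      (Eventually.of_forall fun t => ?_)
    · exact (((bd_four _).mul (h1 k).1).1).const_mul _
    · filter_upwards [((bd_four (-m)).mul (h1 k).1).2] with t ht
      rw [norm_mul, norm_inv, Complex.norm_natCast, div_eq_inv_mul]
      rw [one_mul] at ht
      gcongr
    · exact Real.summable_pow_div_factorial B
    · rw [Complex.exp_eq_exp_ℂ]
      simp only [mul_left_comm _ (fourier (-m) t)]
      exact (NormedSpace.exp_series_hasSum_exp' (𝕂 := ℂ) (φ t)).mul_left (fourier (-m) t)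
  have h3 : ∀ k : ℕ, ∫ t, fourier (-m) t * φ t ^ k ∂μ = 0 := fun k => (h1 k).2 m hm
  simp only [integral_const_mul, h3, mul_zero] at h2
  exact h2.unique hasSum_zero

lemma Bd.exp {φ : T → ℂ} {B : ℝ} (h : Bd φ B) : Bd (fun t => Complex.exp (φ t)) (Real.exp B) :=
  ⟨Complex.continuous_exp.comp_aestronglyMeasurable h.1, h.2.mono fun _ ht =>
    (Complex.norm_exp_le_exp_norm _).trans (Real.exp_le_exp.2 ht)⟩

lemma Bd.neg {φ : T → ℂ} {B : ℝ} (h : Bd φ B) : Bd (fun t => -φ t) B :=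
  ⟨h.1.neg, by simpa using h.2⟩

lemma fc_neg (φ : T → ℂ) (n : ℤ) : fourierCoeff (fun t => -φ t) n = -fourierCoeff φ n := by
  simpa using fourierCoeff.const_mul φ (-1) n

lemma HI.mul {u g : T → ℂ} {B C : ℝ} (hu : HI u B) (hg : HI g C) :
    HI (fun t => u t * g t) (B * C) :=
  ⟨hu.1.mul hg.1, fun n hn => mul_spec hu.1 hg.1 n fun m hm => hg.2 _ (by
    have : ¬ m < 0 := fun h => hm (hu.2 m h)
    omega)⟩

lemma HI.exp {u : T → ℂ} {B : ℝ} (hu : HI u B) : HI (fun t => Complex.exp (u t)) (Real.exp B) :=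
  ⟨hu.1.exp, fun n hn => exp_spec hu.1 (AddSubmonoid.nonneg ℤ)
    (fun m hm => hu.2 m (by simpa using hm)) n (by simpa using hn)⟩

lemma HI.neg {u : T → ℂ} {B : ℝ} (hu : HI u B) : HI (fun t => -u t) B :=
  ⟨hu.1.neg, fun n hn => by rw [fc_neg, hu.2 n hn, neg_zero]⟩

lemma anti {η ψ : T → ℂ} {B C : ℝ} (hη : Bd η B) (h : ∀ n, 0 ≤ n → fourierCoeff η n = 0)
    (hψ : Bd ψ C) (h' : ∀ n, 0 ≤ n → fourierCoeff ψ n = 0) (n : ℤ) (hn : 0 ≤ n) :
    fourierCoeff (fun t => Complex.exp (η t) * ψ t) n = 0 :=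
  mul_spec hη.exp hψ n fun m hm => h' _ (by
    have : m ∈ -(AddSubmonoid.nonneg ℤ) := not_imp_comm.1
      (exp_spec hη _ (fun m hm => h m (by simp at hm; omega)) m) hm
    simp at this; omega)

lemma zero_of {g : T → ℂ} (h : Integrable g μ) (h0 : ∀ n, fourierCoeff g n = 0) : g =ᵐ[μ] 0 := by
  filter_upwards [(bd_lim h (C := 0) fun N t => by simp [fj, tp, h0]).2] with t ht
  simpa using ht

theorem upper {φ : T → ℂ} {s N : ℝ} (hφ : Bd φ s) (h : TB φ N) {c : ℂ} (hc : s < ‖c‖) :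
    (∀ f, HH f → (∀ n : ℤ, 0 ≤ n → fourierCoeff (fun t => (φ t - c) * f t) n = 0) → f =ᵐ[μ] 0) ∧
    ∀ g, HH g → ∃ f, HH f ∧
      ∀ n : ℤ, 0 ≤ n → fourierCoeff (fun t => (φ t - c) * f t) n = fourierCoeff g n := by
  have hc0 : 0 < ‖c‖ := hφ.nonneg.trans_lt hc
  have hc1 : c ≠ 0 := norm_pos_iff.1 hc0
  have hsl : ∀ x : ℂ, ‖x‖ < ‖c‖ → 1 + -x / c ∈ Complex.slitPlane := fun x hx =>
    Complex.mem_slitPlane_of_norm_lt_one (by rwa [norm_div, norm_neg, div_lt_one hc0])
  obtain ⟨C, K, bL, tL⟩ := main (F := fun x => Complex.log (1 + -x / c)) hφ h hc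
    (DifferentiableOn.clog (by fun_prop) fun x hx => hsl x (by simpa using hx))
  set L : T → ℂ := fun t => Complex.log (1 + -φ t / c) with hL
  have one : HI (fun _ => 1) 1 := ⟨by simpa using bd_const 1, fun n hn => fc_one hn.ne⟩
  obtain ⟨a, ha, ha'⟩ := bdry (C := K) bL fun z hz => by simpa using tL _ _ one z hz
  set η : T → ℂ := fun t => L t - a t with hη
  have bη : Bd η (C + K) := bL.sub ha.1
  have sη : ∀ n, 0 ≤ n → fourierCoeff η n = 0 := fun n hn => by
    rw [hη, fc_sub bL.int ha.1.int, ha' n hn, sub_self]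
  have tη : TB η (K + K) := fun g B hg z hz => by
    have h1 := pc_add (bη.mul hg.1) (ha.1.mul hg.1) hz
    simp only [← add_mul, hη, sub_add_cancel] at h1
    rw [← sub_eq_iff_eq_add] at h1
    simp only [hη]
    rw [← h1, add_mul]
    exact (norm_sub_le _ _).trans (add_le_add (tL g B hg z hz) (pc_HI (ha.mul hg) hz))
  have fac : ∀ᵐ t ∂μ, φ t - c = -c * (Complex.exp (η t) * Complex.exp (a t)) := by
    filter_upwards [hφ.2] with t ht
    rw [← Complex.exp_add, hη, sub_add_cancel, hL,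
      Complex.exp_log (Complex.slitPlane_ne_zero (hsl _ (ht.trans_lt hc)))]
    field_simp; ring
  have bc := hφ.sub (bd_const c)
  refine ⟨?_, ?_⟩
  · rintro f ⟨B, hf⟩ h0
    have h1 := anti bη.neg (fun n hn => by rw [fc_neg, sη n hn, neg_zero]) (bc.mul hf.1) h0
    have h2 := (ha.exp.mul hf)
    have h3 : (fun t => Complex.exp (-η t) * ((φ t - c) * f t)) =ᵐ[μ]
        fun t => -c * (Complex.exp (a t) * f t) := by
      filter_upwards [fac] with t ht
      rw [ht, Complex.exp_neg]; field_simp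
    simp only [fourierCoeff_congr_ae h3, fourierCoeff.const_mul, mul_eq_zero, neg_eq_zero, hc1,
      false_or] at h1
    filter_upwards [zero_of h2.1.int fun n => (lt_or_ge n 0).elim (h2.2 n) (h1 n)] with t ht
    simpa using ht
  · rintro g ⟨B, hg⟩
    obtain ⟨C', K', b1, t1⟩ := main (F := fun x => Complex.exp (-x)) bη tη (lt_add_one _)
      (by fun_prop)
    obtain ⟨g1, h1, h2⟩ := bdry (b1.mul hg.1) (t1 g B hg)
    have h3 := ha.neg.exp.mul h1
    have h4 : HI (fun _ => -c⁻¹) ‖-c⁻¹‖ := ⟨bd_const _, fun n hn => by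
      simpa [fc_one hn.ne] using fourierCoeff.const_mul (fun _ : T => (1 : ℂ)) (-c⁻¹) n⟩
    refine ⟨_, ⟨_, h4.mul h3⟩, fun n hn => ?_⟩
    have b2 := (b1.mul hg.1).sub h1.1
    have h5 := anti bη sη b2
      (fun n hn => by rw [fc_sub (b1.mul hg.1).int h1.1.int, h2 n hn, sub_self]) n hn
    rw [← sub_zero (fourierCoeff g n), ← h5, ← fc_sub hg.1.int (bη.exp.mul b2).int]
    refine congrFun (fourierCoeff_congr_ae ?_) n
    filter_upwards [fac] with t ht
    rw [ht, Complex.exp_neg, Complex.exp_neg]; field_simp; ring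

end Pool.Agent.H.MP_e9aa5f_an
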