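import Pool.Agent.H.MP_e9aa5f_an.F
namespace Pool.Agent.H.MP_e9aa5f_an
open MeasureTheory Metric Pool.Agent.H.MP_ceba03_an ComplexConjugate Finset Filter Topology
open Pool.Agent.H.MP_535799_an

lemma bs_sub {E ι : Type} [NormedAddCommGroup E] [NormedSpace ℂ E] [CompleteSpace E]
    {S : Submodule ℂ E} (hS : IsClosed (S : Set E)) (g : ι → E →L[ℂ] ℂ)
    (h : ∀ x ∈ S, ∃ C, ∀ i, ‖g i x‖ ≤ C) : ∃ C, ∀ i, ∀ x ∈ S, ‖g i x‖ ≤ C * ‖x‖ := by
  have := hS.completeSpace_coe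
  obtain ⟨C, hC⟩ := banach_steinhaus (E := S) (g := fun i => (g i).comp S.subtypeL)
    fun x => h x x.2
  exact ⟨C, fun i x hx => ((g i).comp S.subtypeL).le_of_opNorm_le (hC i) ⟨x, hx⟩⟩

lemma om_sub {E F : Type} [NormedAddCommGroup E] [NormedSpace ℂ E] [CompleteSpace E]
    [NormedAddCommGroup F] [NormedSpace ℂ F] [CompleteSpace F] {S : Submodule ℂ F}
    (hS : IsClosed (S : Set F)) {G : Submodule ℂ (E × F)} (hG : IsClosed (G : Set (E × F)))
    (h : ∀ y ∈ S, ∃ x, (x, y) ∈ G) : ∃ C, ∀ y ∈ S, ∃ x, (x, y) ∈ G ∧ ‖x‖ ≤ C * ‖y‖ := by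
  have := hS.completeSpace_coe
  let Γ := G ⊓ S.comap (LinearMap.snd ℂ E F)
  have : CompleteSpace Γ := (hG.inter (hS.preimage continuous_snd)).completeSpace_coe
  obtain ⟨C, -, hC⟩ := ContinuousLinearMap.exists_preimage_norm_le (E := Γ) (F := S)
    (((ContinuousLinearMap.snd ℂ E F).comp Γ.subtypeL).codRestrict S fun p => p.2.2) fun y => by
      obtain ⟨x, hx⟩ := h y y.2
      exact ⟨⟨(x, y), hx, y.2⟩, rfl⟩
  refine ⟨C, fun y hy => ?_⟩
  obtain ⟨p, h1, h2⟩ := hC ⟨y, hy⟩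
  obtain rfl : p.1.2 = y := congrArg Subtype.val h1
  exact ⟨p.1.1, p.2.1, (norm_fst_le p.1).trans h2⟩

noncomputable def DA : Submodule ℂ C(T, ℂ) := ⨅ n : Set.Iio (0 : ℤ), ((co n).comp toL).ker

lemma DA_mem (u : C(T, ℂ)) : u ∈ DA ↔ ∀ n < 0, fourierCoeff u n = 0 := by
  simp [DA, co_toL]

lemma DA_cl : IsClosed (DA : Set C(T, ℂ)) := by
  rw [DA, Submodule.coe_iInf]
  exact isClosed_iInter fun n => ContinuousLinearMap.isClosed_ker _

lemma DA_hi {u : C(T, ℂ)} (h : u ∈ DA) : HI u ‖u‖ :=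
  ⟨⟨u.continuous.aestronglyMeasurable, Eventually.of_forall u.norm_coe_le_norm⟩,
    (DA_mem _).1 h⟩

noncomputable def Lam {φ : T → ℂ} (hφ : Integrable φ μ) (z : ball (0 : ℂ) 1) : C(T, ℂ) →L[ℂ] ℂ :=
  (P (hφ.toL1 φ)).comp (ContinuousLinearMap.mul ℂ C(T, ℂ) ⟨kz z, kz_cont z.2⟩)

lemma Lam_apply {φ : T → ℂ} (hφ : Integrable φ μ) (z : ball (0 : ℂ) 1) (u : C(T, ℂ)) :
    Lam hφ z u = Pc (fun t => φ t * u t) z := by
  change ∫ t, _ ∂μ = ∫ t, _ ∂μ
  refine integral_congr_ae ?_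
  filter_upwards [hφ.coeFn_toL1] with t ht
  rw [ht]
  change kz z t * u t * φ t = _
  ring

lemma tb_ex {φ : T → ℂ} {s : ℝ} (hφ : Bd φ s) (h : ∀ f, HH f → ∃ g, HH g ∧
    ∀ n : ℤ, 0 ≤ n → fourierCoeff g n = fourierCoeff (fun t => φ t * f t) n) : ∃ N, TB φ N := by
  obtain ⟨N, hN⟩ := bs_sub DA_cl (Lam hφ.int) fun u hu => by
    obtain ⟨g, ⟨B, h1⟩, h2⟩ := h _ ⟨_, DA_hi hu⟩
    refine ⟨B, fun z => ?_⟩
    rw [Lam_apply, ← pc_congr h1.1.int (hφ.mul (DA_hi hu).1).int h2 z.2]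
    exact pc_HI h1 z.2
  refine ⟨|N|, tb_of hφ fun p B hB z hz => ?_⟩
  have h1 := hi_an (an_poly p) (B := B) fun w hw => by obtain ⟨t, rfl⟩ := e_surj hw; exact hB t
  have h2 := hN ⟨z, hz⟩ ⟨fun t => p.eval (e t), (an_poly p).co.comp_continuous e_cont e_mem⟩
    ((DA_mem _).2 h1.2)
  rw [Lam_apply] at h2
  exact h2.trans (mul_le_mul (le_abs_self _) ((ContinuousMap.norm_le _ h1.1.nonneg).2 hB)
    (norm_nonneg _) (abs_nonneg _))

noncomputable abbrev Li := Lp ℂ ⊤ μ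

lemma Li_bd (f : Li) : Bd f ‖f‖ := by
  rw [Lp.norm_def]; exact bd_top (Lp.aestronglyMeasurable f) (Lp.eLpNorm_lt_top f)

lemma fc_add {φ ψ : T → ℂ} (h : Integrable φ μ) (h' : Integrable ψ μ) (n : ℤ) :
    fourierCoeff (fun t => φ t + ψ t) n = fourierCoeff φ n + fourierCoeff ψ n := by
  simp only [fourierCoeff, smul_add]
  exact integral_add (h.fourier_smul _) (h'.fourier_smul _)

lemma fc_le {φ : T → ℂ} {B : ℝ} (h : Bd φ B) (n : ℤ) : ‖fourierCoeff φ n‖ ≤ B :=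
  (norm_integral_le_of_norm_le_const ((bd_four (-n)).mul h).2).trans (by simp)

noncomputable def lam {ψ : T → ℂ} {B : ℝ} (h : Bd ψ B) (n : ℤ) : Li →L[ℂ] ℂ :=
  LinearMap.mkContinuous
    { toFun := fun f => fourierCoeff (fun t => ψ t * f t) n
      map_add' := fun f g => by
        rw [← fc_add (h.mul (Li_bd f)).int (h.mul (Li_bd g)).int n]
        refine congrFun (fourierCoeff_congr_ae ?_) n
        filter_upwards [Lp.coeFn_add f g] with t ht
        rw [ht, Pi.add_apply, mul_add]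
      map_smul' := fun c f => by
        rw [RingHom.id_apply, smul_eq_mul, ← fourierCoeff.const_mul]
        refine congrFun (fourierCoeff_congr_ae ?_) n
        filter_upwards [Lp.coeFn_smul c f] with t ht
        simp [ht, mul_left_comm] } B fun f => fc_le (h.mul (Li_bd f)) n

lemma lam_apply {ψ : T → ℂ} {B : ℝ} (h : Bd ψ B) (n : ℤ) (f : Li) :
    lam h n f = fourierCoeff (fun t => ψ t * f t) n := rfl

noncomputable def Gm {ψ : T → ℂ} {B : ℝ} (hψ : Bd ψ B) : Submodule ℂ (Li × C(T, ℂ)) :=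
  ⨅ n : Set.Ici (0 : ℤ), ((lam hψ n).coprod ((co n).comp toL)).ker

lemma Gm_mem {ψ : T → ℂ} {B : ℝ} (hψ : Bd ψ B) (f : Li) (u : C(T, ℂ)) :
    (f, u) ∈ Gm hψ ↔ ∀ n : ℤ, 0 ≤ n →
    fourierCoeff (fun t => ψ t * f t) n + fourierCoeff u n = 0 := by
  simp [Gm, co_toL, lam_apply]

lemma Gm_cl {ψ : T → ℂ} {B : ℝ} (hψ : Bd ψ B) : IsClosed (Gm hψ : Set (Li × C(T, ℂ))) := by
  rw [Gm, Submodule.coe_iInf]
  exact isClosed_iInter fun n => ContinuousLinearMap.isClosed_ker _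

lemma unif {ψ : T → ℂ} {B : ℝ} (hψ : Bd ψ B) (h : ∀ g, HH g → ∃ f, HH f ∧
    ∀ n : ℤ, 0 ≤ n → fourierCoeff (fun t => ψ t * f t) n = fourierCoeff g n) :
    ∃ M, ∀ N : ℕ, ∃ f, Bd f M ∧
      ∀ n : ℤ, 0 ≤ n → fourierCoeff (fun t => ψ t * f t) n = if n = N then 1 else 0 := by
  obtain ⟨M, hM⟩ := om_sub DA_cl (Gm_cl hψ) fun u hu => by
    obtain ⟨f, ⟨C, h1⟩, h2⟩ := h _ ⟨_, DA_hi hu⟩
    have h3 := memLp_top_of_bound h1.neg.1.1 C h1.neg.1.2
    refine ⟨h3.toLp _, (Gm_mem _ _ _).2 fun n hn => ?_⟩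
    rw [← h2 n hn, ← eq_neg_iff_add_eq_zero, ← fc_neg]
    refine congrFun (fourierCoeff_congr_ae ?_) n
    filter_upwards [h3.coeFn_toLp] with t ht
    rw [ht, mul_neg]
  refine ⟨M, fun N => ?_⟩
  obtain ⟨p, h1, h2⟩ := hM (fourier N) ((DA_mem _).2 fun n hn => by
    rw [fourierCoeff_fourier, Pi.single_eq_of_ne (by omega)])
  rw [fourier_norm, mul_one] at h2
  refine ⟨fun t => -p t, ((Li_bd _).mono h2).neg, fun n hn => ?_⟩
  have h4 := (Gm_mem _ _ _).1 h1 n hn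
  rw [fourierCoeff_fourier, Pi.single_apply, add_eq_zero_iff_neg_eq, ← fc_neg] at h4
  simpa only [mul_neg] using h4

lemma away {ψ : T → ℂ} {B : ℝ} (hψ : Bd ψ B) (h : ∀ g, HH g → ∃ f, HH f ∧
    ∀ n : ℤ, 0 ≤ n → fourierCoeff (fun t => ψ t * f t) n = fourierCoeff g n) :
    ∃ ε > 0, ∀ᵐ t ∂μ, ε ≤ ‖ψ t‖ := by
  obtain ⟨M, hM⟩ := unif hψ h
  choose f hf hf' using hM
  have hM0 := (hf 0).nonneg
  refine ⟨1 / (2 * (M + 1)), by positivity, ?_⟩
  set ε := 1 / (2 * (M + 1)) with hε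
  set E := {t | ‖ψ t‖ < ε} with hE
  have mE : NullMeasurableSet E μ := nullMeasurableSet_lt hψ.1.norm.aemeasurable aemeasurable_const
  set χ : T → ℂ := E.indicator 1 with hχ
  have bχ : Bd χ 1 := ⟨aestronglyMeasurable_const.indicator₀ mE, Eventually.of_forall fun t => by
    simpa using norm_indicator_le_norm_self (s := E) (1 : T → ℂ) t⟩
  set r := ∫ t, ‖χ t‖ ∂μ with hr
  have r0 : 0 ≤ r := integral_nonneg fun _ => norm_nonneg _
  have h1 : ∫ t, χ t ∂μ = r := by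
    rw [hr, ← integral_complex_ofReal]; congr 1; funext t
    by_cases ht : t ∈ E <;> simp [hχ, ht]
  have h2 : ∀ K : ℕ, r / 2 ≤ (B * M + 1) * ∫ t, ‖fj K χ t - χ t‖ ∂μ := fun K => by
    have b1 := (bd_four (-K)).mul (hψ.mul (hf K))
    have b2 := b1.sub (bd_const 1)
    obtain ⟨_, b3⟩ := bd_cont (fj K χ).continuous
    have h3 := mul_spec b3 b2 0 fun m hm => by
      have h4 : m ≤ K := by
        by_contra h4
        apply hm
        rw [← co_toL, fj, co_tp, if_neg (by simp; omega)]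
      have h5 : fourierCoeff (fun t => fourier (-K) t * (ψ t * f K t)) (0 - m) =
          fourierCoeff (fun t => ψ t * f K t) (K - m) := by
        simp only [fourierCoeff, smul_eq_mul, ← mul_assoc, ← fourier_add]
        congr 1; funext t; congr 4; ring
      rw [fc_sub b1.int (bd_const 1).int, h5, hf' K _ (by omega)]
      by_cases h6 : m = 0
      · simp [h6, fourierCoeff]
      · rw [if_neg (by omega), fc_one (by omega), sub_self]
    simp only [fourierCoeff, neg_zero, fourier_zero, one_smul] at h3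
    have h4 : ‖∫ t, χ t * (fourier (-K) t * (ψ t * f K t)) ∂μ‖ ≤ r / 2 := by
      rw [hr, ← integral_div]
      refine norm_integral_le_of_norm_le (bχ.int.norm.div_const _) ?_
      filter_upwards [(hf K).2, (bd_four (-K)).2] with t h4 h5
      by_cases ht : t ∈ E
      · have h6 : ‖ψ t‖ ≤ ε := le_of_lt ht
        simp only [norm_mul, hχ, Set.indicator_of_mem ht, Pi.one_apply, norm_one, one_mul]
        calc _ ≤ 1 * (ε * M) := by gcongr
          _ ≤ _ := by rw [hε]; field_simp; linarith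
      · simp [hχ, ht]
    have h5 : (r : ℂ) = ∫ t, χ t * (fourier (-K) t * (ψ t * f K t)) ∂μ +
        ∫ t, (fj K χ t - χ t) * (fourier (-K) t * (ψ t * f K t) - 1) ∂μ := by
      simp only [sub_mul]
      rw [integral_sub (b3.mul b2).int (bχ.mul b2).int, h3]
      simp only [mul_sub, mul_one]
      rw [integral_sub (bχ.mul b1).int bχ.int, h1]; ring
    have h6 : ‖∫ t, (fj K χ t - χ t) * (fourier (-K) t * (ψ t * f K t) - 1) ∂μ‖ ≤
        (B * M + 1) * ∫ t, ‖fj K χ t - χ t‖ ∂μ := by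
      rw [← integral_const_mul]
      refine norm_integral_le_of_norm_le ((b3.int.sub bχ.int).norm.const_mul _) ?_
      filter_upwards [b2.2] with t ht
      rw [norm_mul, mul_comm]
      gcongr; simpa using ht
    have h7 := (norm_add_le _ _).trans (add_le_add h4 h6)
    rw [← h5, Complex.norm_real, Real.norm_of_nonneg r0] at h7
    linarith
  have h3 : r / 2 ≤ 0 := ge_of_tendsto' (by simpa using (fj_tend bχ.int).const_mul (B * M + 1)) h2
  have h4 := (integral_eq_zero_iff_of_nonneg (fun t => norm_nonneg (χ t)) bχ.int.norm).1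
    (by linarith)
  filter_upwards [h4] with t ht
  by_contra h5
  have : t ∈ E := not_le.1 h5
  simp [hχ, this] at ht

lemma lower {φ : T → ℂ} (h1 : AEStronglyMeasurable φ μ) (h2 : eLpNorm φ ⊤ μ < ⊤) {b : ℝ}
    (h : ∀ c : ℂ, b < ‖c‖ → ∀ g, HH g → ∃ f, HH f ∧
      ∀ n : ℤ, 0 ≤ n → fourierCoeff (fun t => (φ t - c) * f t) n = fourierCoeff g n) :
    (eLpNorm φ ⊤ μ).toReal ≤ b := by
  have hφ := bd_top h1 h2
  refine le_of_forall_gt_imp_ge_of_dense fun b' hb' => ?_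
  have hK : IsCompact (closedBall (0 : ℂ) (eLpNorm φ ⊤ μ).toReal ∩ {c | b' ≤ ‖c‖}) :=
    (isCompact_closedBall _ _).inter_right (isClosed_le continuous_const continuous_norm)
  have h3 := hK.induction_on (p := fun U => ∀ᵐ t ∂μ, φ t ∉ U) (by simp)
    (fun U V hUV hV => hV.mono fun t ht h => ht (hUV h))
    (fun U V hU hV => by filter_upwards [hU, hV] with t h4 h5; simp [h4, h5]) fun c hc => by
      obtain ⟨ε, h4, h5⟩ := away (hφ.sub (bd_const c)) (h c (hb'.trans_le hc.2))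
      exact ⟨ball c ε, mem_nhdsWithin_of_mem_nhds (ball_mem_nhds c h4),
        h5.mono fun t ht => by simpa [dist_eq_norm] using ht⟩
  have h4 : Bd φ b' := ⟨h1, by
    filter_upwards [h3, hφ.2] with t h4 h5
    by_contra h6
    exact h4 ⟨mem_closedBall_zero_iff.2 h5, (not_le.1 h6).le⟩⟩
  exact ENNReal.toReal_le_of_le_ofReal h4.nonneg (eLpNormEssSup_le_of_ae_bound h4.2)

end Pool.Agent.H.MP_e9aa5f_an
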